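import Pool.Agent.K9h37.TN.Wild

set_option autoImplicit false
set_option linter.unusedVariables false
set_option linter.unusedSectionVars false

open AlgebraicGeometry CategoryTheory CategoryTheory.Limits MvPolynomial NumberField
open scoped Pointwise

namespace Pool.Agent.K9h37.TN

open Pool.Agent.H918R2.Quad Pool.Agent.H945R2.E Pool.Agent.H945R2.D Pool.Agent.W418
  Pool.Agent.TH214.RM

/-- The three kinds of local equations. -/
def Loc3 {O : Type} [CommRing O] (𝔭 : Ideal O) {n : ℕ} (H : MvPolynomial (Fin (n + 2)) O) (d : ℕ) :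
    Prop :=
  Crit 𝔭 H ∨ Newton 𝔭 H d ∨ ∃ a : Fin (n + 2) → O, 3 ≤ d ∧ Squarefree d ∧ HypAt d 𝔭 a ∧
    H = diag d a

/-- Over each nonzero prime the hypersurface has a good equation in suitable coordinates. -/
def LocReg3 (O : Type) {K : Type} [CommRing O] [Field K] [Algebra O K] {n : ℕ}
    (G : MvPolynomial (Fin (n + 2)) K) (d : ℕ) : Prop :=
  ∀ 𝔭 : Ideal O, 𝔭.IsPrime → 𝔭 ≠ ⊥ →
    ∃ (H : MvPolynomial (Fin (n + 2)) O) (l : K) (T T' : Matrix (Fin (n + 2)) (Fin (n + 2)) K),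
      l ≠ 0 ∧ T * T' = 1 ∧
      map (algebraMap O K) H = C l * aeval (fun i => ∑ j, C (T i j) * X j) G ∧ Loc3 𝔭 H d

section

variable {O K F : Type} [CommRing O] [IsDedekindDomain O] [Field K] [Algebra O K]
  [IsFractionRing O K] [Field F] [Algebra K F] [Algebra O F] [IsScalarTower O K F]

include K in
theorem goodModule_of_locReg3 [CharZero O] [CharZero K]
    (hfin : ∀ 𝔭 : Ideal O, 𝔭.IsPrime → 𝔭 ≠ ⊥ → Finite (O ⧸ 𝔭)) {n : ℕ}
    (G : MvPolynomial (Fin (n + 2)) K) (hGp : Prime G)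
    (d : ℕ) (hGd : G.IsHomogeneous d) (hsm : Smooth G) (hloc : LocReg3 O G d)
    (x : Fin (n + 2) → F) (hx0 : x 0 = 1) (hrel : aeval x G = 0)
    (hgen : IntermediateField.adjoin K (Set.range x) = ⊤)
    (b : Fin n → F) (htb : IsTranscendenceBasis K b) : GoodModule O x := by
  classical
  have hG0 : G ≠ 0 := hGp.ne_zero
  have hOK : Function.Injective (algebraMap O K) := IsFractionRing.injective O K
  obtain ⟨s₀, hs₀, G₀, hG₀⟩ := clear_poly (R := K) (nonZeroDivisors O) G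
  have hs₀0 : s₀ ≠ 0 := nonZeroDivisors.ne_zero hs₀
  have hs₀K : algebraMap O K s₀ ≠ 0 := fun h => hs₀0 (hOK (by rw [h, map_zero]))
  have hG₀0 : G₀ ≠ 0 := by
    rintro rfl
    rw [map_zero] at hG₀
    have h1 : (C (algebraMap O K s₀) : MvPolynomial (Fin (n + 2)) K) ≠ 0 := by
      rwa [Ne, C_eq_zero]
    exact (mul_ne_zero h1 hG0) hG₀.symm
  have hG₀d : G₀.IsHomogeneous d := by
    refine IsHomogeneous.of_map (f := algebraMap O K) hOK ?_
    rw [hG₀]
    have h1 := (isHomogeneous_C (Fin (n + 2)) (algebraMap O K s₀)).mul hGd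
    rwa [zero_add] at h1
  have hrelG₀ : aeval x G₀ = 0 := by
    rw [← aeval_map_algebraMap K x G₀, hG₀, map_mul, hrel, mul_zero]
  have hspan : Ideal.span (Set.range fun j => pderiv j G) =
      Ideal.span (map (algebraMap O K) '' (Set.range fun j => pderiv j G₀)) := by
    apply le_antisymm
    · rw [Ideal.span_le]
      rintro _ ⟨j, rfl⟩
      change pderiv j G ∈ Ideal.span _
      have h1 : pderiv j G = C (algebraMap O K s₀)⁻¹ * map (algebraMap O K) (pderiv j G₀) := by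
        rw [← pderiv_map, hG₀, pderiv_C_mul, ← mul_assoc, ← C_mul, inv_mul_cancel₀ hs₀K, C_1,
          one_mul]
      rw [h1]
      exact Ideal.mul_mem_left _ _ (Ideal.subset_span ⟨_, ⟨j, rfl⟩, rfl⟩)
    · rw [Ideal.span_le]
      rintro _ ⟨_, ⟨j, rfl⟩, rfl⟩
      have h1 : map (algebraMap O K) (pderiv j G₀) = C (algebraMap O K s₀) * pderiv j G := by
        rw [← pderiv_map, hG₀, pderiv_C_mul]
      rw [SetLike.mem_coe]
      change map (algebraMap O K) (pderiv j G₀) ∈ _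
      rw [h1]
      exact Ideal.mul_mem_left _ _ (Ideal.subset_span ⟨j, rfl⟩)
  have hex : ∀ i, ∃ c : O, c ≠ 0 ∧ ∃ k : ℕ,
      C c * X i ^ k ∈ Ideal.span (Set.range fun j => pderiv j G₀) := by
    intro i
    obtain ⟨k, hk⟩ := hsm i
    rw [hspan] at hk
    obtain ⟨c, hc, y, hy, hyc⟩ := clear_span (R := K) (nonZeroDivisors O) _ _ hk
    refine ⟨c, nonZeroDivisors.ne_zero hc, k, ?_⟩
    have h1 : y = C c * X i ^ k := by
      apply map_injective _ hOK
      rw [hyc, map_mul, map_C, map_pow, map_X]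
    rwa [← h1]
  choose c hc k hk using hex
  have hc0 : ∏ i, c i ≠ 0 := by
    rw [Finset.prod_ne_zero_iff]
    exact fun i _ => hc i
  have hDspan : Ideal.span {∏ i, c i} ≠ ⊥ := by
    rw [Ne, Ideal.span_singleton_eq_bot]
    exact hc0
  let S : Finset (Ideal O) :=
    (UniqueFactorizationMonoid.normalizedFactors (Ideal.span {∏ i, c i})).toFinset
  have hS : ∀ 𝔭, 𝔭 ∈ S ↔ 𝔭.IsPrime ∧ ∏ i, c i ∈ 𝔭 := by
    intro 𝔭
    rw [Multiset.mem_toFinset, Ideal.mem_normalizedFactors_iff hDspan,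
      Ideal.span_singleton_le_iff_mem]
  have hS0 : ∀ 𝔭 ∈ S, 𝔭 ≠ ⊥ := by
    intro 𝔭 h𝔭 h
    have h1 := ((hS 𝔭).1 h𝔭).2
    rw [h] at h1
    exact hc0 h1
  refine goodModule_of_loc (K := K) x hx0 S (fun 𝔭 h𝔭 =>
    ⟨Ideal.IsPrime.isMaximal ((hS 𝔭).1 h𝔭).1 (hS0 𝔭 h𝔭), hS0 𝔭 h𝔭⟩) ?_ ?_
  · intro 𝔭 h𝔭
    have hpp := ((hS 𝔭).1 h𝔭).1
    have h0 := hS0 𝔭 h𝔭
    obtain ⟨H, l, T, T', hl, hTT, hH, hcase⟩ := hloc 𝔭 hpp h0
    let x' : Fin (n + 2) → F := fun i => ∑ j, algebraMap K F (T' i j) * x j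
    have hxx' : ∀ i, x i = ∑ j, algebraMap K F (T i j) * x' j := lin_coords T T' hTT x
    have hTT' : T' * T = 1 := mul_eq_one_comm.1 hTT
    have hH0 : H ≠ 0 := by
      rintro rfl
      rw [map_zero] at hH
      have h1 : (aeval (fun i => ∑ j, C (T i j) * X j) :
          MvPolynomial (Fin (n + 2)) K →ₐ[K] MvPolynomial (Fin (n + 2)) K) G = 0 := by
        rcases mul_eq_zero.1 hH.symm with h | h
        · exact absurd (C_eq_zero.1 h) hl
        · exact h
      have h2 := lin_subst T' T hTT' G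
      rw [h1, map_zero] at h2
      exact hG0 h2.symm
    have hHd : H.IsHomogeneous d := by
      refine IsHomogeneous.of_map (f := algebraMap O K) hOK ?_
      rw [hH]
      have h1 : ((aeval (fun i => ∑ j, C (T i j) * X j) :
          MvPolynomial (Fin (n + 2)) K →ₐ[K] MvPolynomial (Fin (n + 2)) K) G).IsHomogeneous
            (1 * d) := by
        refine hGd.aeval _ fun i => ?_
        refine IsHomogeneous.sum _ _ _ fun j _ => ?_
        have h2 := (isHomogeneous_C (Fin (n + 2)) (T i j)).mul (isHomogeneous_X K j)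
        rwa [zero_add] at h2
      have h2 := (isHomogeneous_C (Fin (n + 2)) l).mul h1
      rwa [zero_add, one_mul] at h2
    have hrelH : aeval x' H = 0 := rel_lin G H l T T' hTT hH x hrel
    rcases hcase with hcrit | hnew | ⟨a, hd3, hsq, ha, rfl⟩
    · exact locMod_of_crit (K := K) 𝔭 h0 H hH0 d hHd hcrit x hx0 hgen b htb x' (fun i j => T i j)
        (fun i j => T' i j) hxx' (fun i => rfl) hrelH
    · have hne : ∀ i, x' i ≠ 0 := by
        refine coord_ne_zero H d hHd hnew.1 x' hrelH ?_ ?_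
        · by_contra hcon
          push Not at hcon
          have h1 := hxx' 0
          rw [hx0] at h1
          simp only [hcon, mul_zero, Finset.sum_const_zero] at h1
          exact one_ne_zero h1
        · intro s hs
          obtain ⟨j₀, hj₀⟩ := hind_of (K := K) (ι := Fin (n + 2)) (by simp) x hx0 hgen b htb x'
            (fun i j => T i j) hxx' s hs
          exact ⟨j₀, hj₀.restrictScalars hOK⟩
      refine locMod_lin (K := K) 𝔭 h0 x x' ?_ ?_ ?_
      · intro i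
        refine Submodule.sum_mem _ fun j _ => ?_
        rw [← Algebra.smul_def]
        exact Submodule.smul_mem _ _ (Submodule.subset_span ⟨j, rfl⟩)
      · intro i
        rw [hxx' i]
        refine Submodule.sum_mem _ fun j _ => ?_
        rw [← Algebra.smul_def]
        exact Submodule.smul_mem _ _ (Submodule.subset_span ⟨j, rfl⟩)
      · exact locMod_of_newton' (K := K) 𝔭 h0 H d hHd hnew x hx0 hgen b htb x' hne
          (fun i j => T i j) hxx' hrelH
    · exact locMod_wild (K := K) 𝔭 h0 (hfin 𝔭 hpp h0) G hGp d hGd hd3 hsq a ha x hx0 hrel hgen b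
        htb l hl T T' hTT hH
  · intro 𝔭 hpp h𝔭 D hD M hM hM2
    have hprod : ∏ i, c i ∉ 𝔭 := fun h => h𝔭 ((hS 𝔭).2 ⟨hpp, h⟩)
    have hcp : ∀ i, c i ∉ 𝔭 := fun i h => hprod
      (Ideal.mem_of_dvd 𝔭 (Finset.dvd_prod_of_mem c (Finset.mem_univ i)) h)
    refine regAt_of_crit (K := K) 𝔭 G₀ hG₀0 d hG₀d
      (crit_of_smooth 𝔭 G₀ d hG₀d fun i => ⟨c i, hcp i, k i, hk i⟩) x hx0 hgen b htb x
      (fun i j => if i = j then 1 else 0) ?_ hrelG₀ D hD M hM hM2
    intro i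
    simp only [apply_ite (algebraMap K F), map_one, map_zero, ite_mul, one_mul, zero_mul,
      Finset.sum_ite_eq, Finset.mem_univ, if_true]

end

theorem model_Z3 {K : Type} [Field K] [NumberField K] {n : ℕ} (hn : 1 ≤ n)
    (G : MvPolynomial (Fin (n + 2)) K) (d : ℕ) (hd : 2 ≤ d) (hGd : G.IsHomogeneous d)
    (hsm : Smooth G) (hloc : LocReg3 (𝓞 K) G d) {A : Type} [CommRing A] [Algebra K A]
    (π : MvPolynomial (Fin (n + 2)) K →ₐ[K] A) (hπ : Function.Surjective π)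
    (hker : RingHom.ker π = Ideal.span {G})
    (𝒜 : ℕ → Submodule K A) [GradedAlgebra 𝒜]
    (h𝒜 : ∀ d, 𝒜 d = (homogeneousSubmodule (Fin (n + 2)) K d).map π.toLinearMap)
    (Y : Scheme.{0}) (hY : Nonempty (Y ≅ Proj 𝒜)) : HasRegularModel Y := by
  have hirr := irreducible_of_smooth hn G d (by omega) hGd hsm
  obtain ⟨F, _, _, x, b, hx0, hrel, hgen, htb⟩ := exists_ff G hirr d hGd
    (not_dvd_X G hirr.ne_zero d hd hGd)
  let _ : Algebra (𝓞 K) F := ((algebraMap K F).comp (algebraMap (𝓞 K) K)).toAlgebra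
  have hst : IsScalarTower (𝓞 K) K F := IsScalarTower.of_algebraMap_eq fun _ => rfl
  have hfin : ∀ 𝔭 : Ideal (𝓞 K), 𝔭.IsPrime → 𝔭 ≠ ⊥ → Finite (𝓞 K ⧸ 𝔭) := by
    intro 𝔭 _ h0
    exact Ideal.finiteQuotientOfFreeOfNeBot 𝔭 h0
  have hM : GoodModule (𝓞 K) x :=
    goodModule_of_locReg3 (K := K) hfin G hirr.prime d hGd hsm hloc x hx0 hrel hgen b htb
  obtain ⟨ε, hε, hεgen, hε1⟩ := exists_eps x hx0 hgen _ htb G hirr.prime d hGd hrel π hπ hker 𝒜 h𝒜
  exact Pool.Agent.TH214.RM.hasRegularModel_of_goodModule (O := 𝓞 K) 𝒜 ε hε hεgen x hε1 hM Y hY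

/-! ### Diagonal equations at the primes not dividing the degree -/

section diag

variable {O K : Type} [CommRing O] [IsDedekindDomain O] [Field K] [Algebra O K]
  [IsFractionRing O K]

theorem exists_unit_form (𝔭 : Ideal O) [𝔭.IsPrime] (h0 : 𝔭 ≠ ⊥) (ϖ : O) (hϖ : ϖ ∈ 𝔭)
    (hϖ2 : ϖ ∉ 𝔭 ^ 2) (α : O) (hα : α ≠ 0) :
    ∃ (v : ℕ) (ε s : O), ε ∉ 𝔭 ∧ s ∉ 𝔭 ∧ s * α = ε * ϖ ^ v := by
  let R := Localization.AtPrime 𝔭
  have hdvr : IsDiscreteValuationRing R :=
    IsLocalization.AtPrime.isDiscreteValuationRing_of_dedekind_domain O h0 R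
  have hinj : Function.Injective (algebraMap O R) :=
    IsLocalization.injective R 𝔭.primeCompl_le_nonZeroDivisors
  have hπ : Irreducible (algebraMap O R ϖ) := ARIaux.irr 𝔭 h0 hϖ hϖ2
  obtain ⟨v, u, hu⟩ := IsDiscreteValuationRing.eq_unit_mul_pow_irreducible
    (x := algebraMap O R α) (fun h => hα (hinj (by rw [h, map_zero]))) hπ
  obtain ⟨ε, s, hεs⟩ := IsLocalization.exists_mk'_eq 𝔭.primeCompl (u : R)
  refine ⟨v, ε, s, ?_, s.2, ?_⟩
  · intro hε
    have h1 : IsUnit (IsLocalization.mk' R ε s) := by rw [hεs]; exact u.isUnit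
    exact ((IsLocalization.AtPrime.isUnit_mk'_iff R 𝔭 ε s).1 h1) hε
  · apply hinj
    rw [map_mul, map_mul, map_pow, hu, ← mul_assoc]
    congr 1
    rw [← hεs, IsLocalization.mk'_spec']

theorem newton_diag {n : ℕ} (𝔭 : Ideal O) [h𝔭 : 𝔭.IsPrime] (ϖ : O) (hϖ : ϖ ∈ 𝔭)
    (hϖ2 : ϖ ∉ 𝔭 ^ 2) (m : ℕ) (hm : 1 ≤ m) (hm𝔭 : (m : O) ∉ 𝔭) (ε : Fin (n + 2) → O)
    (hε : ∀ i, ε i ∉ 𝔭) (v : Fin (n + 2) → ℕ) :
    Newton 𝔭 (diag m (fun i => ε i * ϖ ^ v i)) m := by
  classical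
  have hϖ0 : ϖ ≠ 0 := by
    rintro rfl
    exact hϖ2 (Ideal.zero_mem _)
  have hε0 : ∀ i, ε i ≠ 0 := by
    intro i h
    apply hε i
    rw [h]
    exact Ideal.zero_mem _
  have hne : ∀ i, ε i * ϖ ^ v i ≠ 0 := fun i => mul_ne_zero (hε0 i) (pow_ne_zero _ hϖ0)
  -- the index of a monomial
  let idx : (Fin (n + 2) →₀ ℕ) → Fin (n + 2) := fun a =>
    if h : ∃ i, Finsupp.single i m = a then h.choose else 0
  have hidx : ∀ i, idx (Finsupp.single i m) = i := by
    intro i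
    have h : ∃ j, (Finsupp.single j m : Fin (n + 2) →₀ ℕ) = Finsupp.single i m := ⟨i, rfl⟩
    simp only [idx, dif_pos h]
    exact single_inj hm h.choose_spec
  have hsupp : ∀ a, a ∈ (diag m (fun i => ε i * ϖ ^ v i)).support ↔
      ∃ i, a = Finsupp.single i m := by
    intro a
    rw [mem_support_iff]
    constructor
    · intro h
      rw [diag_coeff m hm] at h
      obtain ⟨i, _, hi⟩ := Finset.exists_ne_zero_of_sum_ne_zero h
      refine ⟨i, ?_⟩
      by_contra h2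
      rw [if_neg (fun h3 => h2 h3.symm)] at hi
      exact hi rfl
    · rintro ⟨i, rfl⟩
      rw [diag_coeff_single m hm]
      exact hne i
  refine ⟨fun i => by rw [diag_coeff_single m hm]; exact hne i, ϖ, hϖ, hϖ2, fun a => ε (idx a),
    fun a => v (idx a), ?_, ?_⟩
  · intro a ha
    obtain ⟨i, rfl⟩ := (hsupp a).1 ha
    simp only [hidx]
    exact ⟨diag_coeff_single m hm _ i, hε i⟩
  · intro N w hN k _ ψ hψ ξ hξ _
    set A := (diag m (fun i => ε i * ϖ ^ v i)).support with hA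
    obtain ⟨a₀, ha₀, hmin⟩ := Finset.exists_min_image A
      (fun a => N * v (idx a) + ∑ i, w i * a i) ⟨Finsupp.single 0 m, (hsupp _).2 ⟨0, rfl⟩⟩
    obtain ⟨i, rfl⟩ := (hsupp a₀).1 ha₀
    refine ⟨i, ?_⟩
    rw [Finset.sum_eq_single (Finsupp.single i m)]
    · have hmk : (m : k) ≠ 0 := by
        intro h
        apply hm𝔭
        rw [← hψ, RingHom.mem_ker, map_natCast]
        exact h
      have hεk : ψ (ε (idx (Finsupp.single i m))) ≠ 0 := by
        rw [hidx]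
        intro h
        apply hε i
        rw [← hψ, RingHom.mem_ker]
        exact h
      refine mul_ne_zero ?_ (mul_ne_zero hεk (Finset.prod_ne_zero_iff.2 fun j _ =>
        pow_ne_zero _ (hξ j)))
      rw [Finsupp.single_eq_same]
      exact hmk
    · intro a ha hne'
      obtain ⟨j, rfl⟩ := (hsupp a).1 (Finset.mem_filter.1 ha).1
      have hij : i ≠ j := by
        rintro rfl
        exact hne' rfl
      rw [Finsupp.single_eq_of_ne hij, Nat.cast_zero, zero_mul]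
    · intro h
      exfalso
      apply h
      rw [Finset.mem_filter]
      exact ⟨ha₀, hmin⟩

/-- The equation of a diagonal hypersurface at a prime not containing the degree. -/
theorem exists_newton_diag {n : ℕ} (𝔭 : Ideal O) [𝔭.IsPrime] (h0 : 𝔭 ≠ ⊥) (m : ℕ) (hm : 1 ≤ m)
    (hm𝔭 : (m : O) ∉ 𝔭) (c : Fin (n + 2) → K) (hc : ∀ i, c i ≠ 0) :
    ∃ (H : MvPolynomial (Fin (n + 2)) O) (l : K), l ≠ 0 ∧
      map (algebraMap O K) H = C l * diag m c ∧ Newton 𝔭 H m := by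
  classical
  have hOK : Function.Injective (algebraMap O K) := IsFractionRing.injective O K
  obtain ⟨d, hd⟩ := IsLocalization.exist_integer_multiples_of_finite (nonZeroDivisors O) c
  choose a ha using hd
  have hd0 : (d : O) ≠ 0 := nonZeroDivisors.ne_zero d.2
  have hdK : algebraMap O K d ≠ 0 := fun h => hd0 (hOK (by rw [h, map_zero]))
  have ha' : ∀ i, algebraMap O K (a i) = algebraMap O K d * c i := by
    intro i
    rw [ha i, Algebra.smul_def]
  have ha0 : ∀ i, a i ≠ 0 := by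
    intro i h
    have h1 := ha' i
    rw [h, map_zero] at h1
    exact mul_ne_zero hdK (hc i) h1.symm
  have hlt : 𝔭 ^ 2 < 𝔭 := by
    have h1 := Ideal.pow_right_strictAnti 𝔭 h0 Ideal.IsPrime.ne_top' (show 1 < 2 by norm_num)
    simpa using h1
  obtain ⟨ϖ, hϖ, hϖ2⟩ := Set.exists_of_ssubset hlt
  choose v ε s hε hs hsa using fun i => exists_unit_form 𝔭 h0 ϖ hϖ hϖ2 (a i) (ha0 i)
  have hsp : ∀ t : Finset (Fin (n + 2)), ∏ j ∈ t, s j ∉ 𝔭 := by
    intro t h
    obtain ⟨j, _, hj⟩ := (Ideal.IsPrime.prod_mem_iff).1 h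
    exact hs j hj
  have hs0 : ∏ j, s j ≠ 0 := by
    intro h
    apply hsp Finset.univ
    rw [h]
    exact Ideal.zero_mem _
  refine ⟨diag m (fun i => (ε i * ∏ j ∈ Finset.univ.erase i, s j) * ϖ ^ v i),
    algebraMap O K (∏ j, s j) * algebraMap O K d, mul_ne_zero
      (fun h => hs0 (hOK (by rw [h, map_zero]))) hdK, ?_, ?_⟩
  · rw [diag, diag, map_sum, Finset.mul_sum]
    refine Finset.sum_congr rfl fun i _ => ?_
    rw [map_mul, map_C, map_pow, map_X, ← mul_assoc, ← C_mul]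
    congr 2
    have h1 : ε i * (∏ j ∈ Finset.univ.erase i, s j) * ϖ ^ v i = (∏ j, s j) * a i := by
      rw [← Finset.mul_prod_erase _ _ (Finset.mem_univ i)]
      linear_combination (-(∏ j ∈ Finset.univ.erase i, s j)) * hsa i
    rw [h1, map_mul, ha', mul_assoc]
  · refine newton_diag 𝔭 ϖ hϖ hϖ2 m hm hm𝔭 _ (fun i h => ?_) v
    rcases Ideal.IsPrime.mem_or_mem inferInstance h with h | h
    · exact hε i h
    · exact hsp _ h

end diag

/-- The local condition at the primes containing the degree. -/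
def WildK (O : Type) {K ι : Type} [CommRing O] [Field K] [Algebra O K] (m : ℕ) (c : ι → K) : Prop :=
  ∀ 𝔭 : Ideal O, 𝔭.IsPrime → 𝔭 ≠ ⊥ → (m : O) ∈ 𝔭 → ∃ (a : ι → O) (b : ι → K) (l : K), l ≠ 0 ∧
    (∀ i, b i ≠ 0) ∧ (∀ i, algebraMap O K (a i) = l * c i * b i ^ m) ∧ (∀ i, a i ∉ 𝔭) ∧
    ∀ p : ℕ, p.Prime → p ∣ m → (p : O) ∈ 𝔭 →
      (p : O) ∉ 𝔭 ^ 2 ∨ ∃ r : ℕ, 2 ≤ r ∧ r ∣ p - 1 ∧ (p : O) ∈ 𝔭 ^ r ∧ (p : O) ∉ 𝔭 ^ (r + 1) ∧
        ∀ i, ∃ (z : ℤ) (y : O), a i - z * y ^ p ∈ 𝔭 ^ (2 * r)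

theorem locReg3_diag {O K : Type} [CommRing O] [IsDedekindDomain O] [Field K] [Algebra O K]
    [IsFractionRing O K] {n : ℕ} (m : ℕ) (hm : 3 ≤ m) (hsq : Squarefree m)
    (c : Fin (n + 2) → K) (hc : ∀ i, c i ≠ 0) (hw : WildK O m c) :
    LocReg3 O (diag m c) m := by
  classical
  intro 𝔭 hp h0
  have haev : ∀ b : Fin (n + 2) → K, (aeval (fun i => ∑ j, C (Matrix.diagonal b i j) * X j) :
      MvPolynomial (Fin (n + 2)) K →ₐ[K] MvPolynomial (Fin (n + 2)) K) (diag m c) =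
      diag m (fun i => c i * b i ^ m) := by
    intro b
    rw [diag_aeval, diag]
    refine Finset.sum_congr rfl fun i _ => ?_
    have h1 : ∑ j, C (Matrix.diagonal b i j) * (X j : MvPolynomial (Fin (n + 2)) K) =
        C (b i) * X i := by
      rw [Finset.sum_eq_single i]
      · rw [Matrix.diagonal_apply_eq]
      · intro j _ hj
        rw [Matrix.diagonal_apply_ne _ hj.symm, C_0, zero_mul]
      · simp
    rw [h1, algebraMap_eq, mul_pow, ← mul_assoc, ← C_pow, ← C_mul]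
  have hinv : ∀ b : Fin (n + 2) → K, (∀ i, b i ≠ 0) →
      Matrix.diagonal b * Matrix.diagonal (fun i => (b i)⁻¹) = 1 := by
    intro b hb
    rw [Matrix.diagonal_mul_diagonal]
    rw [← Matrix.diagonal_one]
    congr 1
    funext i
    exact mul_inv_cancel₀ (hb i)
  by_cases hm𝔭 : (m : O) ∈ 𝔭
  · obtain ⟨a, b, l, hl, hb, hab, ha, hpp⟩ := hw 𝔭 hp h0 hm𝔭
    refine ⟨diag m a, l, Matrix.diagonal b, Matrix.diagonal (fun i => (b i)⁻¹), hl, hinv b hb, ?_,
      Or.inr (Or.inr ⟨a, hm, hsq, ⟨hpp, fun i h => ha i (Ideal.pow_le_self (by norm_num) h),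
        fun _ => ha⟩, rfl⟩)⟩
    rw [haev, diag, diag, map_sum, Finset.mul_sum]
    refine Finset.sum_congr rfl fun i _ => ?_
    rw [map_mul, map_C, map_pow, map_X, ← mul_assoc, ← C_mul, hab, mul_assoc]
  · obtain ⟨H, l, hl, hH, hnew⟩ := exists_newton_diag (K := K) 𝔭 h0 m (by omega) hm𝔭 c hc
    refine ⟨H, l, Matrix.diagonal (fun _ => 1), Matrix.diagonal (fun _ => (1 : K)⁻¹), hl,
      hinv _ (fun _ => one_ne_zero), ?_, Or.inr (Or.inl hnew)⟩
    rw [haev, hH]
    simp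

end Pool.Agent.K9h37.TN
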