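import Pool.Agent.K9h37.TN.Ref

set_option autoImplicit false
set_option linter.unusedVariables false
set_option linter.unusedSectionVars false

namespace Pool.Agent.K9h37.TN

open MvPolynomial

/-- The equation `∑ ε a * π ^ v a * X ^ a`, `a ∈ A`, is nondegenerate. -/
def NDR {R ι : Type} [CommRing R] [Fintype ι] (𝔭 : Ideal R) (A : Finset (ι →₀ ℕ))
    (ε : (ι →₀ ℕ) → R) (v : (ι →₀ ℕ) → ℕ) : Prop :=
  ∀ (N : ℕ) (w : ι → ℕ), 1 ≤ N → ∀ (k : Type) [Field k] (ψ : R →+* k), RingHom.ker ψ = 𝔭 →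
    ∀ ξ : ι → k, (∀ i, ξ i ≠ 0) →
    ∑ a ∈ A.filter (fun a => ∀ b ∈ A, N * v a + ∑ i, w i * a i ≤ N * v b + ∑ i, w i * b i),
      ψ (ε a) * ∏ i, ξ i ^ a i = 0 →
    ∃ i, ∑ a ∈ A.filter (fun a => ∀ b ∈ A, N * v a + ∑ i, w i * a i ≤ N * v b + ∑ i, w i * b i),
      (a i : k) * (ψ (ε a) * ∏ i, ξ i ^ a i) ≠ 0

section xm

variable {R L : Type} [CommRing R] [Fintype L]

/-- The monomial with exponents `c`. -/
noncomputable def xm (R : Type) [CommRing R] (c : L → ℕ) : MvPolynomial L R := ∏ l, X l ^ c l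

theorem xm_eq (c : L → ℕ) : xm R c = monomial (Finsupp.equivFunOnFinite.symm c) 1 := by
  rw [monomial_eq, C_1, one_mul, Finsupp.prod_fintype]
  · rfl
  · intro i
    rw [pow_zero]

theorem xm_mul (c c' : L → ℕ) : xm R c * xm R c' = xm R (c + c') := by
  simp only [xm, Pi.add_apply, pow_add, Finset.prod_mul_distrib]

theorem xm_zero : xm R (0 : L → ℕ) = 1 := by simp [xm]

theorem xm_pow (c : L → ℕ) (n : ℕ) : xm R c ^ n = xm R (n • c) := by
  simp only [xm, Pi.smul_apply, smul_eq_mul, ← Finset.prod_pow, ← pow_mul, mul_comm]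

theorem xm_prod {J : Type} (s : Finset J) (c : J → L → ℕ) :
    ∏ j ∈ s, xm R (c j) = xm R (∑ j ∈ s, c j) := by
  classical
  induction s using Finset.induction_on with
  | empty => simp [xm_zero]
  | insert a s ha ih => rw [Finset.prod_insert ha, Finset.sum_insert ha, ih, xm_mul]

theorem xm_single [DecidableEq L] (l : L) : xm R (Pi.single l 1) = X l := by
  rw [xm, Finset.prod_eq_single l]
  · simp
  · intro b _ hb
    simp [hb]
  · simp

theorem map_xm {B : Type} [CommRing B] (Ψ : MvPolynomial L R →+* B) (c : L → ℕ) :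
    Ψ (xm R c) = ∏ l, Ψ (X l) ^ c l := by
  rw [xm, map_prod]
  simp only [map_pow]

theorem euler_xm (c : L → ℕ) (l : L) (r : R) :
    X l * pderiv l (C r * xm R c) = C (c l : R) * (C r * xm R c) := by
  rw [xm_eq, C_mul_monomial, X_mul_pderiv_monomial, C_mul_monomial, mul_one, nsmul_eq_mul,
    ← C_eq_coe_nat, C_mul_monomial]
  rfl

end xm

variable {ι : Type} [Fintype ι] [DecidableEq ι]

/-- The lattice point of a monomial. -/
def μ (v : (ι →₀ ℕ) → ℕ) (a : ι →₀ ℕ) : Lat ι := (fun i => (a i : ℤ), (v a : ℤ))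

theorem pr_μ (r : Lat ι) (v : (ι →₀ ℕ) → ℕ) (a : ι →₀ ℕ) :
    pr r (μ v a) = ∑ i, r.1 i * a i + r.2 * v a := rfl

/-- The exponents of the strict transform. -/
def cx (Φ : Fan ι) (t : Φ.T) (v : (ι →₀ ℕ) → ℕ) (a₀ a : ι →₀ ℕ) (l : {l // l ∈ Φ.S t}) : ℕ :=
  (pr (Φ.r l) (μ v a - μ v a₀)).toNat

/-- The strict transform. -/
noncomputable def gt {R : Type} [CommRing R] (Φ : Fan ι) (t : Φ.T) (A : Finset (ι →₀ ℕ))
    (ε : (ι →₀ ℕ) → R) (v : (ι →₀ ℕ) → ℕ) (a₀ : ι →₀ ℕ) : MvPolynomial {l // l ∈ Φ.S t} R :=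
  ∑ a ∈ A, C (ε a) * xm R (cx Φ t v a₀ a)

section nondeg

variable {R : Type} [CommRing R] (𝔭 : Ideal R) (Φ : Fan ι) (t : Φ.T) (A : Finset (ι →₀ ℕ))
  (ε : (ι →₀ ℕ) → R) (v : (ι →₀ ℕ) → ℕ) (a₀ : ι →₀ ℕ)

/-- Characters of the lattice. -/
noncomputable def chi {k : Type} [Field k] (z : {l // l ∈ Φ.S t} → k) (m : Lat ι) : k :=
  ∏ l, z l ^ pr (Φ.r l) m

theorem chi_ne_zero {k : Type} [Field k] (z : {l // l ∈ Φ.S t} → k) (hz : ∀ l, z l ≠ 0)
    (m : Lat ι) : chi Φ t z m ≠ 0 := Finset.prod_ne_zero_iff.2 fun l _ => zpow_ne_zero _ (hz l)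

theorem chi_add {k : Type} [Field k] (z : {l // l ∈ Φ.S t} → k) (hz : ∀ l, z l ≠ 0)
    (m m' : Lat ι) : chi Φ t z (m + m') = chi Φ t z m * chi Φ t z m' := by
  simp only [chi, pr_add, zpow_add₀ (hz _), Finset.prod_mul_distrib]

theorem chi_zero {k : Type} [Field k] (z : {l // l ∈ Φ.S t} → k) : chi Φ t z 0 = 1 := by
  simp [chi]

theorem chi_nsmul {k : Type} [Field k] (z : {l // l ∈ Φ.S t} → k) (hz : ∀ l, z l ≠ 0)
    (m : Lat ι) (n : ℕ) : chi Φ t z (n • m) = chi Φ t z m ^ n := by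
  induction n with
  | zero => rw [zero_smul, chi_zero, pow_zero]
  | succ n ih => rw [succ_nsmul, chi_add Φ t z hz, ih, pow_succ]

theorem chi_sum {k : Type} [Field k] (z : {l // l ∈ Φ.S t} → k) (hz : ∀ l, z l ≠ 0)
    {J : Type} (s : Finset J) (f : J → Lat ι) :
    chi Φ t z (∑ j ∈ s, f j) = ∏ j ∈ s, chi Φ t z (f j) := by
  classical
  induction s using Finset.induction_on with
  | empty => simp [chi_zero]
  | insert a s ha ih => rw [Finset.sum_insert ha, Finset.prod_insert ha, chi_add Φ t z hz, ih]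

theorem μ_eq (a : ι →₀ ℕ) : μ v a = ∑ i, a i • ((Pi.single i 1, 0) : Lat ι) + v a • ((0, 1) : Lat ι) := by
  refine Prod.ext ?_ ?_
  · ext j
    simp [μ, Prod.fst_sum, Finset.sum_apply, Pi.single_apply]
  · simp [μ, Prod.snd_sum]

theorem exists_deriv (hnd : NDR 𝔭 A ε v) (d : ℕ) (hd : ∀ a ∈ A, ∑ i, a i = d)
    (ha₀ : a₀ ∈ A) (hΦ : ∀ a ∈ A, ∀ l ∈ Φ.S t, pr (Φ.r l) (μ v a₀) ≤ pr (Φ.r l) (μ v a))
    {k : Type} [Field k] [IsAlgClosed k] (Ψ : MvPolynomial {l // l ∈ Φ.S t} R →+* k)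
    (hψ : RingHom.ker (Ψ.comp C) = 𝔭) (hg : Ψ (gt Φ t A ε v a₀) = 0)
    (l₁ : {l // l ∈ Φ.S t}) (hN₁ : 0 < (Φ.r l₁).2) (hl₁ : Ψ (X l₁) = 0) :
    ∃ l, Ψ (X l) ≠ 0 ∧ Ψ (pderiv l (gt Φ t A ε v a₀)) ≠ 0 := by
  classical
  by_contra hcon
  push Not at hcon
  set ψ : R →+* k := Ψ.comp C with hψdef
  set y : {l // l ∈ Φ.S t} → k := fun l => Ψ (X l) with hy
  set M : (ι →₀ ℕ) → k := fun a => ∏ l, y l ^ cx Φ t v a₀ a l with hM
  have hΨ : ∀ a, Ψ (C (ε a) * xm R (cx Φ t v a₀ a)) = ψ (ε a) * M a := by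
    intro a
    rw [map_mul, map_xm]
    rfl
  have hc : ∀ a ∈ A, ∀ l, (cx Φ t v a₀ a l : ℤ) = pr (Φ.r l) (μ v a - μ v a₀) := by
    intro a ha l
    rw [cx, Int.toNat_of_nonneg]
    rw [pr_sub]
    have := hΦ a ha l l.2
    omega
  have h1 : ∑ a ∈ A, ψ (ε a) * M a = 0 := by
    rw [← hg, gt, map_sum]
    exact Finset.sum_congr rfl fun a _ => (hΨ a).symm
  have h2 : ∀ l, ∑ a ∈ A, (cx Φ t v a₀ a l : k) * (ψ (ε a) * M a) = 0 := by
    intro l
    have h3 : Ψ (X l * pderiv l (gt Φ t A ε v a₀)) = 0 := by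
      rw [map_mul]
      by_cases h : Ψ (X l) = 0
      · rw [h, zero_mul]
      · rw [hcon l h, mul_zero]
    rw [gt, map_sum, Finset.mul_sum, map_sum] at h3
    rw [← h3]
    refine Finset.sum_congr rfl fun a _ => ?_
    rw [euler_xm, map_mul, hΨ]
    congr 1
    rw [map_natCast, map_natCast]
  have h3 : ∀ i, ∑ a ∈ A, (a i : k) * (ψ (ε a) * M a) = 0 := by
    intro i
    have h4 : ∀ a ∈ A, (a i : k) = (a₀ i : k) +
        ∑ l : {l // l ∈ Φ.S t}, (cx Φ t v a₀ a l : k) * ((Φ.y t l).1 i : k) := by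
      intro a ha
      have hdeg : deg (μ v a - μ v a₀) = 0 := by
        rw [deg_sub]
        have e1 : deg (μ v a) = d := by
          have := hd a ha
          simp only [deg, μ]
          exact_mod_cast this
        have e2 : deg (μ v a₀) = d := by
          have := hd a₀ ha₀
          simp only [deg, μ]
          exact_mod_cast this
        rw [e1, e2, sub_self]
      have h5 := Φ.exp t _ hdeg
      have h6 := congrFun (congrArg Prod.fst h5) i
      rw [Prod.fst_sum, Finset.sum_apply] at h6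
      simp only [Prod.fst_sub, Pi.sub_apply, Prod.smul_fst, Pi.smul_apply, smul_eq_mul] at h6
      rw [← Finset.sum_coe_sort (Φ.S t)
        (fun l => pr (Φ.r l) (μ v a - μ v a₀) * (Φ.y t l).1 i)] at h6
      have h7 : (a i : ℤ) = (a₀ i : ℤ) +
          ∑ l : {l // l ∈ Φ.S t}, (cx Φ t v a₀ a l : ℤ) * (Φ.y t l).1 i := by
        have h8 : ∑ l : {l // l ∈ Φ.S t}, (cx Φ t v a₀ a l : ℤ) * (Φ.y t l).1 i =
            ∑ l : {l // l ∈ Φ.S t}, pr (Φ.r l) (μ v a - μ v a₀) * (Φ.y t l).1 i :=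
          Finset.sum_congr rfl fun l _ => by rw [hc a ha l]
        rw [h8]
        simp only [μ] at h6 ⊢
        linarith
      have h8 := congrArg (Int.cast : ℤ → k) h7
      push_cast at h8
      exact h8
    have h5 : ∑ a ∈ A, (a i : k) * (ψ (ε a) * M a) = (a₀ i : k) * ∑ a ∈ A, ψ (ε a) * M a +
        ∑ l : {l // l ∈ Φ.S t}, ((Φ.y t l).1 i : k) *
          ∑ a ∈ A, (cx Φ t v a₀ a l : k) * (ψ (ε a) * M a) := by
      simp only [Finset.mul_sum]
      rw [Finset.sum_comm, ← Finset.sum_add_distrib]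
      refine Finset.sum_congr rfl fun a ha => ?_
      rw [h4 a ha, add_mul, Finset.sum_mul]
      congr 1
      exact Finset.sum_congr rfl fun l _ => by ring
    rw [h5, h1, mul_zero, zero_add]
    exact Finset.sum_eq_zero fun l _ => by rw [h2 l, mul_zero]
  -- the weight
  set σ₀ : Finset {l // l ∈ Φ.S t} := Finset.univ.filter (fun l => y l = 0) with hσ₀
  have hmem : ∀ l, l ∈ σ₀ ↔ y l = 0 := by
    intro l
    simp [hσ₀]
  set ρ : Lat ι := ∑ l ∈ σ₀, Φ.r l with hρ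
  have hρ1 : ∀ i, 0 ≤ ρ.1 i := by
    intro i
    rw [hρ, Prod.fst_sum, Finset.sum_apply]
    exact Finset.sum_nonneg fun l _ => Φ.w0 l i
  have hρ2 : 1 ≤ ρ.2 := by
    rw [hρ, Prod.snd_sum]
    have h4 : (Φ.r l₁).2 ≤ ∑ l ∈ σ₀, (Φ.r l).2 :=
      Finset.single_le_sum (f := fun l : {l // l ∈ Φ.S t} => (Φ.r l).2)
        (fun l _ => Φ.N0 l) ((hmem l₁).2 hl₁)
    omega
  have hpr : ∀ m, pr ρ m = ∑ l ∈ σ₀, pr (Φ.r l) m := fun m => by rw [hρ, pr_sum_left]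
  have hh : ∀ a, ((ρ.2.toNat * v a + ∑ i, (ρ.1 i).toNat * a i : ℕ) : ℤ) = pr ρ (μ v a) := by
    intro a
    rw [pr_μ]
    push_cast
    rw [Int.toNat_of_nonneg (by omega), add_comm]
    congr 1
    refine Finset.sum_congr rfl fun i _ => ?_
    rw [Int.toNat_of_nonneg (hρ1 i)]
  set B := A.filter (fun a => ∀ b ∈ A, ρ.2.toNat * v a + ∑ i, (ρ.1 i).toNat * a i ≤
    ρ.2.toNat * v b + ∑ i, (ρ.1 i).toNat * b i) with hB
  have hdiff : ∀ a ∈ A, pr ρ (μ v a) = pr ρ (μ v a₀) + ∑ l ∈ σ₀, (cx Φ t v a₀ a l : ℤ) := by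
    intro a ha
    have h4 : pr ρ (μ v a) - pr ρ (μ v a₀) = ∑ l ∈ σ₀, (cx Φ t v a₀ a l : ℤ) := by
      rw [← pr_sub, hpr]
      exact Finset.sum_congr rfl fun l _ => (hc a ha l).symm
    omega
  have hBc : ∀ a, a ∈ B ↔ a ∈ A ∧ ∀ l ∈ σ₀, cx Φ t v a₀ a l = 0 := by
    intro a
    rw [hB, Finset.mem_filter]
    refine and_congr_right fun ha => ?_
    constructor
    · intro h l hl
      have h4 := h a₀ ha₀
      have h5 : pr ρ (μ v a) ≤ pr ρ (μ v a₀) := by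
        rw [← hh, ← hh]
        exact_mod_cast h4
      rw [hdiff a ha] at h5
      have h6 : (cx Φ t v a₀ a l : ℤ) ≤ ∑ l ∈ σ₀, (cx Φ t v a₀ a l : ℤ) :=
        Finset.single_le_sum (f := fun l => (cx Φ t v a₀ a l : ℤ))
          (fun l _ => by positivity) hl
      omega
    · intro h b hb
      have h5 : pr ρ (μ v a) ≤ pr ρ (μ v b) := by
        rw [hdiff a ha, hdiff b hb, Finset.sum_eq_zero (fun l hl => by rw [h l hl]; rfl)]
        have : 0 ≤ ∑ l ∈ σ₀, (cx Φ t v a₀ b l : ℤ) := Finset.sum_nonneg fun _ _ => by positivity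
        omega
      rw [← hh, ← hh] at h5
      exact_mod_cast h5
  have hMB : ∀ a ∈ A, a ∉ B → M a = 0 := by
    intro a ha haB
    rw [hBc] at haB
    push Not at haB
    obtain ⟨l, hl, hcl⟩ := haB ha
    exact Finset.prod_eq_zero (Finset.mem_univ l) (by rw [(hmem l).1 hl, zero_pow hcl])
  have hsum : ∀ f : (ι →₀ ℕ) → k, ∑ a ∈ B, f a * (ψ (ε a) * M a) =
      ∑ a ∈ A, f a * (ψ (ε a) * M a) := by
    intro f
    refine Finset.sum_subset (Finset.filter_subset _ _) fun a ha haB => ?_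
    rw [hMB a ha haB, mul_zero, mul_zero]
  -- the point
  set z : {l // l ∈ Φ.S t} → k := fun l => if y l = 0 then 1 else y l with hz
  have hz0 : ∀ l, z l ≠ 0 := by
    intro l
    simp only [hz]
    split_ifs with h
    · exact one_ne_zero
    · exact h
  obtain ⟨τ, hτ⟩ := IsAlgClosed.exists_pow_nat_eq (chi Φ t z (0, 1))⁻¹
    (n := ρ.2.toNat) (by omega)
  have hθ0 := chi_ne_zero Φ t z hz0 (0, 1)
  have hτ0 : τ ≠ 0 := by
    rintro rfl
    rw [zero_pow (by omega)] at hτ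
    exact inv_ne_zero hθ0 hτ.symm
  set ξ : ι → k := fun i => chi Φ t z (Pi.single i 1, 0) * τ ^ (ρ.1 i).toNat with hξ
  have hξ0 : ∀ i, ξ i ≠ 0 := fun i => mul_ne_zero (chi_ne_zero Φ t z hz0 _) (pow_ne_zero _ hτ0)
  set Z : k := chi Φ t z (μ v a₀) * τ ^ (pr ρ (μ v a₀)).toNat with hZ
  have hξB : ∀ a ∈ B, ∏ i, ξ i ^ a i = Z * M a := by
    intro a ha
    obtain ⟨haA, hca⟩ := (hBc a).1 ha
    have e1 : ∏ i, ξ i ^ a i = (∏ i, chi Φ t z (Pi.single i 1, 0) ^ a i) *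
        τ ^ (∑ i, (ρ.1 i).toNat * a i) := by
      simp only [hξ, mul_pow, Finset.prod_mul_distrib, ← pow_mul, Finset.prod_pow_eq_pow_sum]
    have e2 : chi Φ t z (μ v a) = (∏ i, chi Φ t z (Pi.single i 1, 0) ^ a i) *
        chi Φ t z (0, 1) ^ v a := by
      conv_lhs => rw [μ_eq]
      rw [chi_add Φ t z hz0, chi_sum Φ t z hz0, chi_nsmul Φ t z hz0]
      simp only [chi_nsmul Φ t z hz0]
    have e3 : chi Φ t z (0, 1) ^ v a * τ ^ (ρ.2.toNat * v a) = 1 := by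
      rw [pow_mul, hτ, ← mul_pow, mul_inv_cancel₀ hθ0, one_pow]
    have e4 : (pr ρ (μ v a₀)).toNat = ρ.2.toNat * v a + ∑ i, (ρ.1 i).toNat * a i := by
      have e5 := hdiff a haA
      rw [Finset.sum_eq_zero (fun l hl => by rw [hca l hl]; rfl), add_zero] at e5
      rw [← e5, ← hh, Int.toNat_natCast]
    have e5 : chi Φ t z (μ v a) = chi Φ t z (μ v a₀) * M a := by
      have e6 : μ v a = μ v a₀ + (μ v a - μ v a₀) := by abel
      rw [e6, chi_add Φ t z hz0]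
      congr 1
      · simp only [chi, hM]
        refine Finset.prod_congr rfl fun l _ => ?_
        rw [← hc a haA l, zpow_natCast]
        by_cases hl : y l = 0
        · rw [hca l ((hmem l).2 hl), pow_zero, pow_zero]
        · simp only [hz, if_neg hl]
    rw [e1, hZ, e4, pow_add]
    calc (∏ i, chi Φ t z (Pi.single i 1, 0) ^ a i) * τ ^ (∑ i, (ρ.1 i).toNat * a i)
        = (∏ i, chi Φ t z (Pi.single i 1, 0) ^ a i) *
          (chi Φ t z (0, 1) ^ v a * τ ^ (ρ.2.toNat * v a)) *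
          τ ^ (∑ i, (ρ.1 i).toNat * a i) := by rw [e3, mul_one]
      _ = chi Φ t z (μ v a) * τ ^ (ρ.2.toNat * v a) * τ ^ (∑ i, (ρ.1 i).toNat * a i) := by
          rw [e2]; ring
      _ = _ := by rw [e5]; ring
  obtain ⟨i, hi⟩ := hnd ρ.2.toNat (fun i => (ρ.1 i).toNat) (by omega) k ψ hψ ξ hξ0 (by
    have e1 := hsum (fun _ => 1)
    simp only [one_mul] at e1
    rw [h1] at e1
    have e2 : ∑ a ∈ B, ψ (ε a) * ∏ i, ξ i ^ a i = Z * ∑ a ∈ B, ψ (ε a) * M a := by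
      rw [Finset.mul_sum]
      refine Finset.sum_congr rfl fun a ha => ?_
      rw [hξB a ha]
      ring
    rw [e1, mul_zero] at e2
    exact e2)
  apply hi
  have e2 : ∑ a ∈ B, (a i : k) * (ψ (ε a) * ∏ i, ξ i ^ a i) =
      Z * ∑ a ∈ B, (a i : k) * (ψ (ε a) * M a) := by
    rw [Finset.mul_sum]
    refine Finset.sum_congr rfl fun a ha => ?_
    rw [hξB a ha]
    ring
  rw [hsum (fun a => (a i : k)), h3 i, mul_zero] at e2
  exact e2

end nondeg

end Pool.Agent.K9h37.TN
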