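import Pool.Agent.H945R2.D.HT
import Pool.Agent.H918R2.Quad.Reg2

/-! Regularity of `R[X] / (π - X ^ N, g)` at the points where the toroidal derivative of `g` does
not vanish. -/

set_option autoImplicit false
set_option linter.unusedVariables false
set_option linter.unusedSectionVars false

namespace Pool.Agent.K9h37.TN

open Pool.Agent.H918R2.Quad MvPolynomial

variable {R L : Type} [CommRing R] [IsDomain R] [IsDiscreteValuationRing R]

open Classical in
/-- Reduce the coefficients, `X i ↦ 0` for `i ∈ S`. -/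
noncomputable def th (R : Type) [CommRing R] [IsDomain R] [IsDiscreteValuationRing R]
    (S : Finset L) : MvPolynomial L R →+* MvPolynomial {i // i ∉ S} (IsLocalRing.ResidueField R) :=
  eval₂Hom (C.comp (IsLocalRing.residue R)) (fun i => if h : i ∈ S then 0 else X ⟨i, h⟩)

theorem th_C (S : Finset L) (r : R) : th R S (C r) = C (IsLocalRing.residue R r) := by
  simp [th]

theorem th_X_mem {S : Finset L} {i : L} (h : i ∈ S) : th R S (X i) = 0 := by
  simp [th, h]

theorem th_X_notMem {S : Finset L} {i : L} (h : i ∉ S) : th R S (X i) = X ⟨i, h⟩ := by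
  simp [th, h]

theorem th_surj (S : Finset L) : Function.Surjective (th R S) := by
  intro p
  induction p using MvPolynomial.induction_on with
  | C a =>
    obtain ⟨r, rfl⟩ := IsLocalRing.residue_surjective a
    exact ⟨C r, th_C S r⟩
  | add p q hp hq =>
    obtain ⟨a, rfl⟩ := hp
    obtain ⟨b, rfl⟩ := hq
    exact ⟨a + b, map_add _ _ _⟩
  | mul_X p i hp =>
    obtain ⟨a, rfl⟩ := hp
    exact ⟨a * X (i : L), by rw [map_mul, th_X_notMem i.2]⟩

theorem th_ker {π : R} (hπ : Irreducible π) (S : Finset L) (I : Ideal (MvPolynomial L R))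
    (h1 : C π ∈ I) (h2 : ∀ k ∈ S, X k ∈ I) : RingHom.ker (th R S) ≤ I := by
  classical
  set r0 : R →+* (MvPolynomial L R ⧸ I) := (Ideal.Quotient.mk I).comp C with hr0
  have hr0m : ∀ a ∈ IsLocalRing.maximalIdeal R, r0 a = 0 := by
    intro a ha
    rw [hπ.maximalIdeal_eq, Ideal.mem_span_singleton] at ha
    obtain ⟨c, rfl⟩ := ha
    rw [map_mul]
    have : r0 π = 0 := by
      rw [hr0, RingHom.comp_apply, Ideal.Quotient.eq_zero_iff_mem]
      exact h1
    rw [this, zero_mul]
  set r1 : IsLocalRing.ResidueField R →+* (MvPolynomial L R ⧸ I) :=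
    Ideal.Quotient.lift (IsLocalRing.maximalIdeal R) r0 hr0m with hr1
  have hr1c : ∀ r, r1 (IsLocalRing.residue R r) = r0 r := fun r => rfl
  set r3 : MvPolynomial {i // i ∉ S} (IsLocalRing.ResidueField R) →+* (MvPolynomial L R ⧸ I) :=
    MvPolynomial.eval₂Hom r1 (fun j => Ideal.Quotient.mk I (X j)) with hr3
  have hcomp : r3.comp (th R S) = Ideal.Quotient.mk I := by
    apply MvPolynomial.ringHom_ext
    · intro a
      rw [RingHom.comp_apply, th_C, hr3, MvPolynomial.coe_eval₂Hom, MvPolynomial.eval₂_C, hr1c]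
      rfl
    · intro i
      rw [RingHom.comp_apply]
      by_cases hi : i ∈ S
      · rw [th_X_mem hi, map_zero]
        symm
        rw [Ideal.Quotient.eq_zero_iff_mem]
        exact h2 i hi
      · rw [th_X_notMem hi, hr3, MvPolynomial.coe_eval₂Hom, MvPolynomial.eval₂_X]
  intro p hp
  rw [RingHom.mem_ker] at hp
  have h3 : Ideal.Quotient.mk I p = 0 := by
    rw [← hcomp, RingHom.comp_apply, hp, map_zero]
  rwa [Ideal.Quotient.eq_zero_iff_mem] at h3

theorem th_pderiv (S : Finset L) (i : L) (hi : i ∉ S) (p : MvPolynomial L R) :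
    th R S (pderiv i p) = pderiv ⟨i, hi⟩ (th R S p) := by
  classical
  induction p using MvPolynomial.induction_on with
  | C a => rw [pderiv_C, th_C, pderiv_C, map_zero]
  | add p q hp hq => rw [map_add, map_add, map_add, map_add, hp, hq]
  | mul_X p j hp =>
    rw [pderiv_mul, map_add, map_mul, map_mul, map_mul, pderiv_mul, hp]
    by_cases hj : j ∈ S
    · have hij : j ≠ i := fun h => hi (h ▸ hj)
      rw [th_X_mem hj, map_zero, pderiv_X_of_ne hij, map_zero]
    · rw [th_X_notMem hj]
      by_cases hji : j = i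
      · subst hji
        rw [pderiv_X_self, pderiv_X_self, map_one]
      · rw [pderiv_X_of_ne hji, pderiv_X_of_ne (fun h => hji (congrArg Subtype.val h)), map_zero]

theorem pderiv_mem_of_sq {k J : Type} [CommRing k] (P : Ideal (MvPolynomial J k)) (i : J)
    (x : MvPolynomial J k) (hx : x ∈ P ^ 2) : pderiv i x ∈ P := by
  rw [pow_two] at hx
  refine Submodule.mul_induction_on hx ?_ ?_
  · intro y hy z hz
    rw [pderiv_mul]
    exact Ideal.add_mem _ (Ideal.mul_mem_left _ _ hz) (Ideal.mul_mem_right _ _ hy)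
  · intro y z hy hz
    rw [map_add]
    exact Ideal.add_mem _ hy hz

/-- The regularity criterion. -/
theorem reg_A [Fintype L] {A : Type} [CommRing A] (π : R) (hπ : Irreducible π)
    (pr : MvPolynomial L R →+* A) (hpr : Function.Surjective pr) (N : L → ℕ)
    (g : MvPolynomial L R)
    (hker : RingHom.ker pr = Ideal.span {C π - ∏ l, X l ^ N l, g})
    (q : Ideal A) [q.IsPrime] (l₁ : L) (hN : 1 ≤ N l₁) (hl₁ : pr (X l₁) ∈ q)
    (hnd : ∃ l, pr (X l) ∉ q ∧ pr (pderiv l g) ∉ q) :
    IsRegularLocalRing (Localization.AtPrime q) := by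
  classical
  set E1 : MvPolynomial L R := C π - ∏ l, X l ^ N l with hE1
  have hpr1 : pr E1 = 0 := by
    rw [← RingHom.mem_ker, hker]; exact Ideal.subset_span (by simp)
  have hpr2 : pr g = 0 := by
    rw [← RingHom.mem_ker, hker]; exact Ideal.subset_span (by simp)
  have hpi : pr (C π) = pr (∏ l, X l ^ N l) := by
    have := hpr1
    rw [hE1, map_sub, sub_eq_zero] at this
    exact this
  have hdvd : X l₁ ∣ (∏ l, X l ^ N l : MvPolynomial L R) :=
    (dvd_pow_self _ (by omega)).trans (Finset.dvd_prod_of_mem _ (Finset.mem_univ l₁))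
  set S : Finset L := Finset.univ.filter (fun l => pr (X l) ∈ q) with hS
  have hSm : ∀ l, l ∈ S ↔ pr (X l) ∈ q := by
    intro l
    simp [hS]
  set J : Ideal A := Ideal.span (pr '' ((S.image (fun l => (X l : MvPolynomial L R))) : Set _))
    with hJ
  have hXJ : ∀ l ∈ S, pr (X l) ∈ J := fun l hl => Ideal.subset_span
    ⟨X l, by rw [Finset.coe_image]; exact ⟨l, hl, rfl⟩, rfl⟩
  have hspan : ∀ x ∈ RingHom.ker (th R S), pr x ∈ J := by
    intro x hx
    refine th_ker hπ S (J.comap pr) ?_ ?_ hx
    · rw [Ideal.mem_comap, hpi]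
      obtain ⟨c, hc⟩ := hdvd
      rw [hc, map_mul]
      exact Ideal.mul_mem_right _ _ (hXJ l₁ ((hSm l₁).2 hl₁))
    · intro k hk
      exact hXJ k hk
  have hJq : J ≤ q := by
    rw [hJ, Ideal.span_le]
    rintro _ ⟨y, hy, rfl⟩
    rw [Finset.coe_image] at hy
    obtain ⟨l, hl, rfl⟩ := hy
    exact (hSm l).1 hl
  have hkq : RingHom.ker (th R S) ≤ q.comap pr := fun x hx => hJq (hspan x hx)
  have hmp : ((q.comap pr).map (th R S)).IsPrime :=
    Ideal.map_isPrime_of_surjective (th_surj S) hkq
  have hcomap : ((q.comap pr).map (th R S)).comap (th R S) = q.comap pr := by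
    rw [Ideal.comap_map_of_surjective (th R S) (th_surj S)]
    exact sup_eq_left.2 (by
      intro x hx
      exact hkq (by simpa using hx))
  refine reg_crit_one pr hpr {E1, g} ?_ q (th R S) (th_surj S) hkq
    (S.image (fun l => (X l : MvPolynomial L R))) ?_ ?_ g hpr2 ?_ ?_
  · rw [hker]
    congr 1
    simp
  · intro x hx
    obtain ⟨l, hl, rfl⟩ := Finset.mem_image.1 hx
    exact (hSm l).1 hl
  · intro x hx
    refine ⟨1, ?_, ?_⟩
    · rw [map_one]
      intro h
      exact Ideal.IsPrime.ne_top ‹_› ((Ideal.eq_top_iff_one q).2 h)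
    · rw [one_mul]
      exact hspan x hx
  · intro c hc hcE
    obtain ⟨i, hi, hig⟩ := hnd
    have hiS : i ∉ S := fun h => hi ((hSm i).1 h)
    have h1 := pderiv_mem_of_sq _ ⟨i, hiS⟩ _ hcE
    rw [pderiv_mul] at h1
    have hTE : th R S g ∈ (q.comap pr).map (th R S) := by
      apply Ideal.mem_map_of_mem
      rw [Ideal.mem_comap, hpr2]
      exact q.zero_mem
    have h2 : c * pderiv ⟨i, hiS⟩ (th R S g) ∈ (q.comap pr).map (th R S) := by
      have h3 := Ideal.sub_mem _ h1 (Ideal.mul_mem_left _ (pderiv ⟨i, hiS⟩ c) hTE)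
      rwa [add_sub_cancel_left] at h3
    have h3 := (hmp.mem_or_mem h2).resolve_left hc
    rw [← th_pderiv S i hiS, ← Ideal.mem_comap, hcomap, Ideal.mem_comap] at h3
    exact hig h3
  · have h3 : ((S.card + 1 : ℕ) : ℕ∞) ≤ (RingHom.ker (th R S)).height := by
      refine Pool.Agent.H945R2.D.HT_ok π hπ S _ ?_ ?_
      · rw [RingHom.mem_ker, th_C, Pool.Agent.H945R2.D.HTaux.res_pi hπ, map_zero]
      · intro k hk
        rw [RingHom.mem_ker, th_X_mem hk]
    have hc : (S.image (fun l => (X l : MvPolynomial L R))).card +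
        ({E1, g} : Finset (MvPolynomial L R)).card ≤ S.card + 1 + 1 := by
      have h4 := Finset.card_le_two (a := E1) (b := g)
      have h5 : (S.image (fun l => (X l : MvPolynomial L R))).card ≤ S.card :=
        Finset.card_image_le
      omega
    calc _ ≤ ((S.card + 1 + 1 : ℕ) : ℕ∞) := by exact_mod_cast hc
      _ = ((S.card + 1 : ℕ) : ℕ∞) + 1 := by push_cast; ring
      _ ≤ _ := by gcongr

end Pool.Agent.K9h37.TN
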