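import Pool.Agent.K9h37.TN.LocReg
import Pool.Agent.TH214.RM.Glob
import Pool.Agent.H945R2.D.ARI

set_option autoImplicit false
set_option linter.unusedVariables false
set_option linter.unusedSectionVars false

open scoped Pointwise

namespace Pool.Agent.K9h37.TN

open Pool.Agent.H918R2.Quad Pool.Agent.H945R2.E Pool.Agent.H945R2.D Pool.Agent.W418
  Pool.Agent.TH214.RM MvPolynomial

/-- `G` is convenient and nondegenerate with respect to its Newton polyhedron at `𝔭`: its
coefficients are `ε a * ϖ ^ v a` with `ϖ ∈ 𝔭`, `ϖ ∉ 𝔭 ^ 2`, `ε a ∉ 𝔭`, the monomials `X i ^ d`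
appear, and the polynomials of the faces of the Newton polyhedron which are given by a weight
`(w, N)`, `1 ≤ N`, have no singular points with nonzero coordinates in the fields over `O / 𝔭`. -/
def Newton {O ι : Type} [CommRing O] [Fintype ι] (𝔭 : Ideal O) (G : MvPolynomial ι O) (d : ℕ) :
    Prop :=
  (∀ i, G.coeff (Finsupp.single i d) ≠ 0) ∧ ∃ ϖ ∈ 𝔭, ϖ ∉ 𝔭 ^ 2 ∧
    ∃ (ε : (ι →₀ ℕ) → O) (v : (ι →₀ ℕ) → ℕ),
      (∀ a ∈ G.support, G.coeff a = ε a * ϖ ^ v a ∧ ε a ∉ 𝔭) ∧ NDR 𝔭 G.support ε v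

theorem exists_fan_μ {ι : Type} [Fintype ι] [DecidableEq ι] [Nonempty ι] (A : Finset (ι →₀ ℕ))
    (v : (ι →₀ ℕ) → ℕ) (d : ℕ) (hd : ∀ i, Finsupp.single i d ∈ A) :
    ∃ Φ : Fan ι, ∀ t, ∃ a₀ ∈ A, ∀ a ∈ A, ∀ l ∈ Φ.S t,
      pr (Φ.r l) (μ v a₀) ≤ pr (Φ.r l) (μ v a) := by
  refine exists_fan A (fun a i => (a i : ℤ)) (fun a => (v a : ℤ)) (d : ℤ)
    (fun a i => by positivity) (fun i => ⟨Finsupp.single i d, hd i, ?_⟩)
  funext j
  by_cases h : j = i
  · subst h
    simp
  · rw [Finsupp.single_eq_of_ne h, Pi.single_eq_of_ne h]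
    rfl

section

variable {R F ι : Type} [CommRing R] [Field F] [Algebra R F] [Fintype ι] [DecidableEq ι]

theorem prod_pow_mem (x : ι → F) (a : ι → ℕ) :
    ∏ i, x i ^ a i ∈ Set.range x ^ (∑ i, a i) := by
  classical
  have key : ∀ s : Finset ι, ∏ i ∈ s, x i ^ a i ∈ Set.range x ^ (∑ i ∈ s, a i) := by
    intro s
    induction s using Finset.induction_on with
    | empty => simp
    | insert j s hj ih =>
      rw [Finset.prod_insert hj, Finset.sum_insert hj, pow_add]
      exact Set.mul_mem_mul (Set.pow_mem_pow ⟨j, rfl⟩) ih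
  exact key Finset.univ

theorem mem_range_pow' (x : ι → F) (D : ℕ) (g : F) (hg : g ∈ Set.range x ^ D) :
    ∃ a : ι → ℕ, ∑ i, a i = D ∧ g = ∏ i, x i ^ a i := by
  classical
  obtain ⟨φ, rfl⟩ := (GD1aux.mem_range_pow x D g).1 hg
  refine ⟨fun i => (Finset.univ.filter (fun j => φ j = i)).card, ?_, ?_⟩
  · rw [Finset.sum_card_fiberwise_eq_card_filter]
    simp
  · have h1 : ∏ j, x (φ j) = ∏ i, ∏ j ∈ Finset.univ.filter (fun j => φ j = i), x (φ j) :=
      (Finset.prod_fiberwise Finset.univ φ (fun j => x (φ j))).symm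
    rw [h1]
    refine Finset.prod_congr rfl fun i _ => ?_
    rw [Finset.prod_congr rfl (g := fun _ => x i), Finset.prod_const]
    intro j hj
    rw [(Finset.mem_filter.1 hj).2]

theorem GG_le (π : R) (x : ι → F) (Φ : Fan ι) (k e : ℕ) (D : ℕ) (hD : (D : ℤ) = k * Φ.D + e) :
    Submodule.span R (GG R π x Φ k e) ≤ Submodule.span R (Set.range x ^ D) := by
  rw [Submodule.span_le]
  rintro g ⟨m, ⟨hdeg, hm⟩, rfl⟩
  have h1 : ∀ i, 0 ≤ m.1 i := by
    intro i
    obtain ⟨l, hl, hl2⟩ := Φ.hor i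
    rw [← hl2]
    have := hm l
    rw [Φ.φN l hl, mul_zero] at this
    exact this
  have h2 : 0 ≤ m.2 := by
    obtain ⟨l, hl⟩ := Φ.ver
    rw [← hl]
    exact le_trans (mul_nonneg (by positivity) (Φ.φ0 l)) (hm l)
  have h3 : mo (algebraMap R F π) x m = π ^ m.2.toNat • ∏ i, x i ^ (m.1 i).toNat := by
    rw [mo, Algebra.smul_def, map_pow]
    congr 1
    · conv_lhs => rw [← Int.toNat_of_nonneg h2]
      rw [zpow_natCast]
    · refine Finset.prod_congr rfl fun i _ => ?_
      conv_lhs => rw [← Int.toNat_of_nonneg (h1 i)]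
      rw [zpow_natCast]
  have h4 : ∑ i, (m.1 i).toNat = D := by
    have h5 : ((∑ i, (m.1 i).toNat : ℕ) : ℤ) = D := by
      push_cast
      rw [hD, ← hdeg, deg]
      exact Finset.sum_congr rfl fun i _ => Int.toNat_of_nonneg (h1 i)
    exact_mod_cast h5
  rw [h3]
  refine Submodule.smul_mem _ _ (Submodule.subset_span ?_)
  rw [← h4]
  exact prod_pow_mem x _

theorem GG_ge (π : R) (x : ι → F) (Φ : Fan ι) (k e : ℕ) (D : ℕ) (hD : (D : ℤ) = k * Φ.D + e) :
    ∃ K : ℕ, ∀ y ∈ Submodule.span R (Set.range x ^ D),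
      π ^ K • y ∈ Submodule.span R (GG R π x Φ k e) := by
  refine ⟨k * ∑ l, (Φ.φ l).toNat, fun y hy => ?_⟩
  induction hy using Submodule.span_induction with
  | mem y hy =>
    obtain ⟨a, ha, rfl⟩ := mem_range_pow' x D y hy
    refine Submodule.subset_span ⟨(fun i => (a i : ℤ), ((k * ∑ l, (Φ.φ l).toNat : ℕ) : ℤ)),
      ⟨?_, ?_⟩, ?_⟩
    · rw [← hD, ← ha, deg]
      push_cast
      rfl
    · intro l
      simp only [pr]
      have h1 : 0 ≤ ∑ i, (Φ.r l).1 i * (a i : ℤ) :=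
        Finset.sum_nonneg fun i _ => mul_nonneg (Φ.w0 l i) (by positivity)
      have h2 : (k : ℤ) * Φ.φ l ≤ (Φ.r l).2 * ((k * ∑ l, (Φ.φ l).toNat : ℕ) : ℤ) := by
        rcases eq_or_lt_of_le (Φ.N0 l) with h | h
        · rw [Φ.φN l h.symm, ← h]
          simp
        · have h3 : Φ.φ l ≤ ((∑ l, (Φ.φ l).toNat : ℕ) : ℤ) := by
            have h4 : (Φ.φ l).toNat ≤ ∑ l, (Φ.φ l).toNat :=
              Finset.single_le_sum (f := fun l => (Φ.φ l).toNat) (fun _ _ => Nat.zero_le _)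
                (Finset.mem_univ l)
            have h5 := Int.self_le_toNat (Φ.φ l)
            have h6 : ((Φ.φ l).toNat : ℤ) ≤ ((∑ l, (Φ.φ l).toNat : ℕ) : ℤ) := by exact_mod_cast h4
            omega
          have h7 : (k : ℤ) * Φ.φ l ≤ ((k * ∑ l, (Φ.φ l).toNat : ℕ) : ℤ) := by
            push_cast
            push_cast at h3
            exact mul_le_mul_of_nonneg_left h3 (by positivity)
          have h8 : (0 : ℤ) ≤ ((k * ∑ l, (Φ.φ l).toNat : ℕ) : ℤ) := by positivity
          nlinarith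
      omega
    · simp only [mo, zpow_natCast]
      rw [Algebra.smul_def, map_pow]
  | zero => rw [smul_zero]; exact Submodule.zero_mem _
  | add a b _ _ ha hb => rw [smul_add]; exact Submodule.add_mem _ ha hb
  | smul r a _ ha =>
    rw [smul_comm]
    exact Submodule.smul_mem _ _ ha

end

section

variable {O K F : Type} [CommRing O] [IsDedekindDomain O] [Field K] [Algebra O K]
  [IsFractionRing O K] [Field F] [Algebra K F] [Algebra O F] [IsScalarTower O K F]

theorem NDR_loc {O R ι : Type} [CommRing O] [CommRing R] [Algebra O R] [Fintype ι] (𝔭 : Ideal O)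
    [𝔭.IsPrime] [IsLocalRing R] [IsLocalization.AtPrime R 𝔭] (A : Finset (ι →₀ ℕ))
    (ε : (ι →₀ ℕ) → O)
    (v : (ι →₀ ℕ) → ℕ) (h : NDR 𝔭 A ε v) :
    NDR (IsLocalRing.maximalIdeal R) A (fun a => algebraMap O R (ε a)) v := by
  intro N w hN k _ ψ hψ ξ hξ h0
  refine h N w hN k (ψ.comp (algebraMap O R)) ?_ ξ hξ h0
  ext r
  rw [RingHom.mem_ker, RingHom.comp_apply, ← RingHom.mem_ker, hψ]
  exact IsLocalization.AtPrime.to_map_mem_maximal_iff R 𝔭 r

include K in
/-- The local module at a prime with a nondegenerate equation. -/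
theorem locMod_of_newton' (𝔭 : Ideal O) [𝔭.IsPrime] (h0 : 𝔭 ≠ ⊥) {n : ℕ}
    (G : MvPolynomial (Fin (n + 2)) O) (d : ℕ) (hGd : G.IsHomogeneous d) (hnew : Newton 𝔭 G d)
    (x : Fin (n + 2) → F) (hx0 : x 0 = 1)
    (hgen : IntermediateField.adjoin K (Set.range x) = ⊤)
    (b : Fin n → F) (htb : IsTranscendenceBasis K b)
    (x' : Fin (n + 2) → F) (hx' : ∀ i, x' i ≠ 0) (u : Fin (n + 2) → Fin (n + 2) → K)
    (hu : ∀ i, x i = ∑ j, algebraMap K F (u i j) * x' j) (hrel : aeval x' G = 0) :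
    LocMod 𝔭 x' := by
  obtain ⟨hd, ϖ, hϖ, hϖ2, ε, v, hco, hnd⟩ := hnew
  have hG0 : G ≠ 0 := by
    rintro rfl
    exact hd 0 (by simp)
  obtain ⟨Φ, hΦ⟩ := exists_fan_μ G.support v d (fun i => mem_support_iff.2 (hd i))
  obtain ⟨k₀, hk₀, hk₀b⟩ := exists_bound Φ
  have hDpos := Φ.Dpos
  refine ⟨k₀ * Φ.D.toNat, fun D hD => ?_⟩
  let R := Localization.subalgebra.ofField K 𝔭.primeCompl 𝔭.primeCompl_le_nonZeroDivisors
  have : IsLocalization.AtPrime R 𝔭 := Localization.subalgebra.isLocalization_ofField K _ _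
  have : IsFractionRing R K := Localization.subalgebra.isFractionRing_ofField K _ _
  have hdvr : IsDiscreteValuationRing R :=
    IsLocalization.AtPrime.isDiscreteValuationRing_of_dedekind_domain O h0 R
  have : IsScalarTower O R F := IsScalarTower.of_algebraMap_eq fun r => by
    rw [IsScalarTower.algebraMap_apply O K F]; rfl
  have : IsScalarTower R K F := IsScalarTower.of_algebraMap_eq fun r => rfl
  have hinjOR : Function.Injective (algebraMap O R) :=
    IsLocalization.injective R 𝔭.primeCompl_le_nonZeroDivisors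
  have hinj : Function.Injective (algebraMap R K) := IsFractionRing.injective R K
  have hinjRF : Function.Injective (algebraMap R F) := by
    rw [IsScalarTower.algebraMap_eq R K F]
    exact (algebraMap K F).injective.comp hinj
  have hπ : Irreducible (algebraMap O R ϖ) := ARIaux.irr 𝔭 h0 hϖ hϖ2
  set π : R := algebraMap O R ϖ with hπdef
  -- the degree
  set k : ℕ := D / Φ.D.toNat with hk
  set e : ℕ := D % Φ.D.toNat with he
  have hkk : k₀ ≤ k := (Nat.le_div_iff_mul_le (by omega)).2 hD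
  have hDke : (D : ℤ) = k * Φ.D + e := by
    have h1 := Nat.div_add_mod D Φ.D.toNat
    have h2 : ((Φ.D.toNat * (D / Φ.D.toNat) + D % Φ.D.toNat : ℕ) : ℤ) = D := by
      rw [h1]
    rw [← h2, hk, he]
    push_cast
    rw [Int.toNat_of_nonneg (by omega)]
    ring
  have hkb : ∀ t l l', |pr (Φ.r l') (Φ.y t l)| ≤ (k : ℤ) := fun t l l' =>
    (hk₀b t l l').trans (by exact_mod_cast hkk)
  have hsup : ∀ a ∈ (map (algebraMap O R) G).support, a ∈ G.support := fun a ha =>
    support_map_subset _ _ ha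
  have hsupp : (map (algebraMap O R) G).support = G.support := support_map_of_injective _ hinjOR
  refine ⟨(Submodule.span R (GG R π x' Φ k e)).restrictScalars O, ?_, ?_, ?_⟩
  · intro y hy
    exact clear_denom (R := R) 𝔭 (Set.range x' ^ D) y (GG_le π x' Φ k e D hDke hy)
  · obtain ⟨K', hK'⟩ := GG_ge π x' Φ k e D hDke
    have hmap : 𝔭.map (algebraMap O R) ≤ Ideal.span {π} := by
      rw [Ideal.map_le_iff_le_comap, ← hπ.maximalIdeal_eq]
      intro c hc
      rw [Ideal.mem_comap]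
      exact (IsLocalization.AtPrime.to_map_mem_maximal_iff R 𝔭 c).2 hc
    refine ⟨K', fun c hc y hy => ?_⟩
    obtain ⟨r, hr⟩ : ∃ r : R, algebraMap O R c = π ^ K' * r := by
      have h1 : algebraMap O R c ∈ Ideal.span {π ^ K'} := by
        rw [← Ideal.span_singleton_pow]
        apply Ideal.pow_right_mono hmap
        rw [← Ideal.map_pow]
        exact Ideal.mem_map_of_mem _ hc
      obtain ⟨r, hr⟩ := Ideal.mem_span_singleton.1 h1
      exact ⟨r, hr⟩
    have hy' : y ∈ Submodule.span R (Set.range x' ^ D) := Submodule.span_subset_span O R _ hy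
    have h2 : c • y = r • (π ^ K' • y) := by
      rw [smul_smul, mul_comm, ← hr, algebraMap_smul]
    rw [h2]
    exact Submodule.smul_mem _ r (hK' y hy')
  · intro M hMP hM2 f hfM hf q hqp hq
    obtain ⟨𝒪, hloc, hR, hRU, hloc2, hG, hreg⟩ := transfer (R := R) 𝔭 M (GG R π x' Φ k e)
      (fun y hy => hMP hy) (fun y hy => hM2 y hy) f q hq
    apply hreg
    refine local_reg 𝒪 hloc hR hRU hinjRF π hπ (map (algebraMap O R) G)
      (fun h => hG0 (map_injective _ hinjOR (by rw [h, map_zero]))) d (hGd.map _)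
      (fun a => algebraMap O R (ε a)) v ?_ ?_ Φ ?_ x' hx' ?_ ?_ k e hkb f hf (hMP hfM) hG hloc2
    · intro a ha
      rw [coeff_map, (hco a (hsup a ha)).1, map_mul, map_pow]
    · rw [hsupp]
      exact NDR_loc 𝔭 _ ε v hnd
    · rw [hsupp]
      exact hΦ
    · rw [aeval_map_algebraMap, hrel]
    · intro s hs
      obtain ⟨j₀, hj₀⟩ := hind_of (K := K) (ι := Fin (n + 2)) (by simp) x hx0 hgen b htb x' u hu s hs
      exact ⟨j₀, hj₀.restrictScalars hinj⟩

end

end Pool.Agent.K9h37.TN
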