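import Pool.Agent.K9h37.TN.Fan

set_option autoImplicit false
set_option linter.unusedVariables false
set_option linter.unusedSectionVars false

namespace Pool.Agent.K9h37.TN

variable {ι : Type} [Fintype ι] [DecidableEq ι] (Φ : Fan ι)

lemma Fan.Hge (t : Φ.T) (l : Φ.Λ) : Φ.φ l ≤ pr (Φ.r l) (Φ.H t) := by
  by_cases h : l ∈ Φ.S t
  · exact (Φ.Hin t l h).ge
  · have := Φ.Hout t l h
    omega

/-- The blowup of a fan in a two dimensional cone. -/
def Fan.blow (i j : Φ.Λ) (hij : i ≠ j) (hN : 0 < (Φ.r i).2 + (Φ.r j).2) (k : ℤ)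
    (hk2 : 2 ≤ k) (hk : ∀ t l, |pr (Φ.r l) (Φ.y t i)| + 2 ≤ k ∧ |pr (Φ.r l) (Φ.y t j)| + 2 ≤ k) :
    Fan ι where
  Λ := Option Φ.Λ
  T := Φ.T × Bool
  r := bR Φ i j
  S := bS Φ i j
  y := bY Φ i j
  s := fun q => Φ.s q.1
  H := bH Φ i j k
  φ := bφ Φ i j k
  D := k * Φ.D
  w0 := by
    rintro (_ | l) a
    · simpa [bR] using add_nonneg (Φ.w0 i a) (Φ.w0 j a)
    · exact Φ.w0 l a
  N0 := by
    rintro (_ | l)
    · simpa [bR] using add_nonneg (Φ.N0 i) (Φ.N0 j)
    · exact Φ.N0 l
  ws := by
    rintro ⟨t, b⟩ (_ | l) hl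
    · rw [mem_bS_none] at hl
      simp [bR, Φ.ws t i hl.1, Φ.ws t j hl.2]
    · rw [mem_bS_some] at hl
      exact Φ.ws t l hl.1
  degy := by
    rintro ⟨t, b⟩ (_ | l) hl
    · rw [mem_bS_none] at hl
      cases b
      · exact Φ.degy t j hl.2
      · exact Φ.degy t i hl.1
    · rw [mem_bS_some] at hl
      obtain ⟨hl, h2⟩ := hl
      simp only [bY]
      split_ifs with h3 h4 h5 h6
      · rw [deg_sub, Φ.degy t l hl, Φ.degy t i h3.1, sub_zero]
      · exact Φ.degy t l hl
      · rw [deg_sub, Φ.degy t l hl, Φ.degy t j h3.2, sub_zero]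
      · exact Φ.degy t l hl
      · exact Φ.degy t l hl
  dual := by
    rintro ⟨t, b⟩ l hl l' hl'
    by_cases hb : i ∈ Φ.S t ∧ j ∈ Φ.S t
    · obtain ⟨hi, hj⟩ := hb
      have hji := hij.symm
      have dij := Φ.dual t i hi j hj
      have dji := Φ.dual t j hj i hi
      have dii := Φ.dual t i hi i hi
      have djj := Φ.dual t j hj j hj
      rw [if_neg hji] at dij
      rw [if_neg hij] at dji
      rw [if_pos rfl] at dii djj
      rcases l with _ | l <;> rcases l' with _ | l'
      · simp only [bR, bY, pr_add_left, if_true]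
        cases b
        · simp [dji, djj]
        · simp [dij, dii]
      · rw [mem_bS_some] at hl'
        obtain ⟨h1, h2⟩ := hl'
        have h2 := h2 ⟨hi, hj⟩
        simp only [bR, bY, reduceCtorEq, if_false]
        cases b
        · simp only [Bool.false_eq_true, if_false] at h2 ⊢
          rw [Φ.dual t j hj l' h1, if_neg h2]
        · simp only [if_true] at h2 ⊢
          rw [Φ.dual t i hi l' h1, if_neg h2]
      · rw [mem_bS_some] at hl
        obtain ⟨h1, h2⟩ := hl
        have h2 := h2 ⟨hi, hj⟩
        simp only [bR, bY, reduceCtorEq, if_false, pr_add_left]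
        rw [if_pos (⟨hi, hj⟩ : i ∈ Φ.S t ∧ j ∈ Φ.S t)]
        cases b
        · simp only [Bool.false_eq_true, if_false] at h2 ⊢
          by_cases h3 : l = i
          · subst h3
            rw [if_pos rfl, pr_sub, pr_sub, dii, dji, dij, djj]
            norm_num
          · rw [if_neg h3, Φ.dual t l h1 i hi, Φ.dual t l h1 j hj, if_neg (Ne.symm h3),
              if_neg (Ne.symm h2)]
            norm_num
        · simp only [if_true] at h2 ⊢
          by_cases h3 : l = j
          · subst h3
            rw [if_pos rfl, pr_sub, pr_sub, dii, dji, dij, djj]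
            norm_num
          · rw [if_neg h3, Φ.dual t l h1 i hi, Φ.dual t l h1 j hj, if_neg (Ne.symm h3),
              if_neg (Ne.symm h2)]
            norm_num
      · rw [mem_bS_some] at hl hl'
        have h1 := hl.1
        have h1' := hl'.1
        have h5 := hl'.2 ⟨hi, hj⟩
        simp only [bR, bY, Option.some.injEq]
        rw [if_pos (⟨hi, hj⟩ : i ∈ Φ.S t ∧ j ∈ Φ.S t)]
        cases b
        · simp only [Bool.false_eq_true, if_false] at h5 ⊢
          by_cases h3 : l = i
          · rw [if_pos h3, pr_sub, Φ.dual t l h1 l' h1', Φ.dual t j hj l' h1', if_neg h5,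
              sub_zero]
          · rw [if_neg h3, Φ.dual t l h1 l' h1']
        · simp only [if_true] at h5 ⊢
          by_cases h3 : l = j
          · rw [if_pos h3, pr_sub, Φ.dual t l h1 l' h1', Φ.dual t i hi l' h1', if_neg h5,
              sub_zero]
          · rw [if_neg h3, Φ.dual t l h1 l' h1']
    · rcases l with _ | l
      · rw [mem_bS_none] at hl
        exact absurd hl hb
      rcases l' with _ | l'
      · rw [mem_bS_none] at hl'
        exact absurd hl' hb
      rw [mem_bS_some] at hl hl'
      simp only [bR, bY, Option.some.injEq]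
      rw [if_neg (show ¬ (i ∈ Φ.S t ∧ j ∈ Φ.S t) from hb)]
      exact Φ.dual t l hl.1 l' hl'.1
  exp := by
    rintro ⟨t, b⟩ m hm
    by_cases hb : i ∈ Φ.S t ∧ j ∈ Φ.S t
    · obtain ⟨hi, hj⟩ := hb
      have key : ∀ a c : Φ.Λ, a ∈ Φ.S t → c ∈ Φ.S t → a ≠ c →
          m = pr (Φ.r a + Φ.r c) m • Φ.y t a + ∑ l ∈ (Φ.S t).erase a, pr (Φ.r l) m •
            (if l = c then Φ.y t l - Φ.y t a else Φ.y t l) := by
        intro a c ha hc hac
        have h1 := Φ.exp t m hm
        have h2 : ∑ l ∈ (Φ.S t).erase a, pr (Φ.r l) m •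
            (if l = c then Φ.y t l - Φ.y t a else Φ.y t l) =
            ∑ l ∈ (Φ.S t).erase a, pr (Φ.r l) m • Φ.y t l - pr (Φ.r c) m • Φ.y t a := by
          rw [eq_sub_iff_add_eq]
          have hc' : c ∈ (Φ.S t).erase a := Finset.mem_erase.2 ⟨hac.symm, hc⟩
          rw [← Finset.add_sum_erase _ _ hc', ← Finset.add_sum_erase _ _ hc', if_pos rfl]
          have h3 : ∑ l ∈ ((Φ.S t).erase a).erase c, pr (Φ.r l) m •
              (if l = c then Φ.y t l - Φ.y t a else Φ.y t l) =
              ∑ l ∈ ((Φ.S t).erase a).erase c, pr (Φ.r l) m • Φ.y t l := by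
            refine Finset.sum_congr rfl fun l hl => ?_
            rw [if_neg (Finset.ne_of_mem_erase hl)]
          rw [h3, smul_sub]
          abel
        rw [h2, pr_add_left, add_smul]
        conv_lhs => rw [h1, ← Finset.add_sum_erase _ _ ha]
        abel
      have hS : bS Φ i j (t, b) = insert none
          (((Φ.S t).erase (if b then i else j)).map Function.Embedding.some) := by
        unfold bS
        rw [if_pos ⟨hi, hj⟩]
      rw [hS, Finset.sum_insert (by simp), Finset.sum_map]
      cases b
      · have := key j i hj hi hij.symm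
        simp only [Bool.false_eq_true, if_false, bR, bY, hi, hj, and_self, if_true,
          Function.Embedding.some_apply]
        rw [add_comm (Φ.r i)]
        exact this
      · have := key i j hi hj hij
        simp only [bR, bY, hi, hj, and_self, if_true,
          Function.Embedding.some_apply]
        exact this
    · have hS : bS Φ i j (t, b) = (Φ.S t).map Function.Embedding.some := by
        unfold bS
        rw [if_neg hb]
      rw [hS, Finset.sum_map]
      have h1 := Φ.exp t m hm
      conv_lhs => rw [h1]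
      refine Finset.sum_congr rfl fun l hl => ?_
      simp only [bR, bY, Function.Embedding.some_apply]
      rw [if_neg (show ¬ (i ∈ Φ.S t ∧ j ∈ Φ.S t) from hb)]
  degH := by
    rintro ⟨t, b⟩
    simp only [bH, deg_add, deg_smul, Φ.degH]
    split_ifs with h1 h2
    · simp [Φ.degy t i h1.1]
    · simp [Φ.degy t j h1.2]
    · simp
  Dpos := by
    have := Φ.Dpos
    nlinarith
  Hin := by
    rintro ⟨t, b⟩ (_ | l) hl
    · rw [mem_bS_none] at hl
      obtain ⟨hi, hj⟩ := hl
      have dij := Φ.dual t i hi j hj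
      have dji := Φ.dual t j hj i hi
      have dii := Φ.dual t i hi i hi
      have djj := Φ.dual t j hj j hj
      rw [if_neg hij.symm] at dij
      rw [if_neg hij] at dji
      rw [if_pos rfl] at dii djj
      simp only [bR, bH, bφ, hi, hj, and_self, if_true, pr_add_left, pr_add, pr_smul,
        Φ.Hin t i hi, Φ.Hin t j hj]
      cases b
      · simp only [Bool.false_eq_true, if_false, dji, djj]; ring
      · simp only [if_true, dii, dij]; ring
    · rw [mem_bS_some] at hl
      obtain ⟨h1, h2⟩ := hl
      simp only [bR, bH, bφ, pr_add, pr_smul, Φ.Hin t l h1]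
      split_ifs with h3 h4
      · have h2 := h2 h3
        rw [if_pos h4] at h2
        rw [Φ.dual t i h3.1 l h1, if_neg h2, add_zero]
      · have h2 := h2 h3
        rw [if_neg h4] at h2
        rw [Φ.dual t j h3.2 l h1, if_neg h2, add_zero]
      · simp
  Hout := by
    rintro ⟨t, b⟩ (_ | l) hl
    · rw [mem_bS_none] at hl
      simp only [bR, bH, bφ]
      rw [if_neg (show ¬ (i ∈ Φ.S t ∧ j ∈ Φ.S t) from hl), add_zero, pr_smul, pr_add_left]
      have h1 := Φ.Hge t i
      have h2 := Φ.Hge t j
      have h3 : Φ.φ i + Φ.φ j + 1 ≤ pr (Φ.r i) (Φ.H t) + pr (Φ.r j) (Φ.H t) := by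
        by_cases hi : i ∈ Φ.S t
        · have hj : j ∉ Φ.S t := fun hj => hl ⟨hi, hj⟩
          have := Φ.Hout t j hj
          omega
        · have := Φ.Hout t i hi
          omega
      nlinarith
    · rw [mem_bS_some] at hl
      simp only [bR, bH, bφ, pr_add, pr_smul]
      by_cases h1 : l ∈ Φ.S t
      · have h2 : i ∈ Φ.S t ∧ j ∈ Φ.S t ∧ l = (if b then i else j) := by
          by_contra h3
          refine hl ⟨h1, fun h4 h5 => h3 ⟨h4.1, h4.2, h5⟩⟩
        obtain ⟨hi, hj, h2⟩ := h2
        rw [if_pos (show (i ∈ Φ.S t ∧ j ∈ Φ.S t) from ⟨hi, hj⟩), ← h2,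
          Φ.dual t l h1 l h1, if_pos rfl, Φ.Hin t l h1]
      · have h2 := Φ.Hout t l h1
        have h3 := (hk t l).1
        have h4 := (hk t l).2
        have h5 := neg_abs_le (pr (Φ.r l) (Φ.y t i))
        have h6 := neg_abs_le (pr (Φ.r l) (Φ.y t j))
        have h7 : k * Φ.φ l + k ≤ k * pr (Φ.r l) (Φ.H t) := by nlinarith
        split_ifs with h8 h9
        · linarith
        · linarith
        · simp only [pr_zero]; linarith
  φ0 := by
    rintro (_ | l)
    · have h1 := Φ.φ0 i
      have h2 := Φ.φ0 j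
      simp only [bφ]
      positivity
    · have h1 := Φ.φ0 l
      simp only [bφ]
      positivity
  φN := by
    rintro (_ | l) hl
    · simp only [bR, Prod.snd_add] at hl
      omega
    · simp only [bφ, Φ.φN l hl, mul_zero]
  hor := fun a => by
    obtain ⟨l, hl, hm⟩ := Φ.hor a
    exact ⟨some l, hl, hm⟩
  ver := by
    obtain ⟨l, hl⟩ := Φ.ver
    exact ⟨some l, hl⟩
  cov := by
    intro P h0 ha hd h1
    obtain ⟨t, ht⟩ := Φ.cov P h0 ha hd h1
    by_cases hb : i ∈ Φ.S t ∧ j ∈ Φ.S t
    · obtain ⟨hi, hj⟩ := hb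
      have hdeg : deg (Φ.y t j - Φ.y t i) = 0 := by
        rw [deg_sub, Φ.degy t i hi, Φ.degy t j hj, sub_zero]
      rcases hd _ hdeg with h | h
      · refine ⟨(t, true), ?_⟩
        rintro (_ | l) hl
        · exact ht i hi
        · rw [mem_bS_some] at hl
          simp only [bY]
          rw [if_pos ⟨hi, hj⟩]
          simp only [if_true]
          split_ifs with h3
          · subst h3; exact h
          · exact ht l hl.1
      · refine ⟨(t, false), ?_⟩
        rintro (_ | l) hl
        · exact ht j hj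
        · rw [mem_bS_some] at hl
          simp only [bY]
          rw [if_pos ⟨hi, hj⟩]
          simp only [Bool.false_eq_true, if_false]
          split_ifs with h3
          · subst h3; rwa [neg_sub] at h
          · exact ht l hl.1
    · refine ⟨(t, false), ?_⟩
      rintro (_ | l) hl
      · rw [mem_bS_none] at hl
        exact absurd hl hb
      · rw [mem_bS_some] at hl
        simp only [bY]
        rw [if_neg (show ¬ (i ∈ Φ.S t ∧ j ∈ Φ.S t) from hb)]
        exact ht l hl.1

end Pool.Agent.K9h37.TN
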