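import Mathlib

/-!
# Smooth fans with a strictly convex support function, over a half space
-/

set_option autoImplicit false
set_option linter.unusedVariables false
set_option linter.unusedSectionVars false

namespace Pool.Agent.K9h37.TN

/-- The exponents `(a, h)` of the monomials `π ^ h x ^ a`. -/
abbrev Lat (ι : Type) : Type := (ι → ℤ) × ℤ

variable {ι : Type} [Fintype ι]

/-- The degree of a monomial. -/
def deg (m : Lat ι) : ℤ := ∑ i, m.1 i

/-- The value of the monomial `m` along the ray `r`. -/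
def pr (r m : Lat ι) : ℤ := ∑ i, r.1 i * m.1 i + r.2 * m.2

@[simp] lemma deg_zero : deg (0 : Lat ι) = 0 := by simp [deg]

lemma deg_add (m m' : Lat ι) : deg (m + m') = deg m + deg m' := by
  simp [deg, Finset.sum_add_distrib]

lemma deg_neg (m : Lat ι) : deg (-m) = - deg m := by
  simp [deg]

lemma deg_sub (m m' : Lat ι) : deg (m - m') = deg m - deg m' := by
  rw [sub_eq_add_neg, deg_add, deg_neg]; ring

lemma deg_smul (k : ℤ) (m : Lat ι) : deg (k • m) = k * deg m := by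
  simp [deg, Finset.mul_sum]

lemma deg_sum {α : Type} (s : Finset α) (f : α → Lat ι) : deg (∑ l ∈ s, f l) = ∑ l ∈ s, deg (f l) := by
  classical
  induction s using Finset.induction_on with
  | empty => simp
  | insert a s ha ih => rw [Finset.sum_insert ha, Finset.sum_insert ha, deg_add, ih]

lemma pr_add (r m m' : Lat ι) : pr r (m + m') = pr r m + pr r m' := by
  simp only [pr, Prod.fst_add, Pi.add_apply, Prod.snd_add, mul_add, Finset.sum_add_distrib]
  ring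

lemma pr_add_left (r r' m : Lat ι) : pr (r + r') m = pr r m + pr r' m := by
  simp only [pr, Prod.fst_add, Pi.add_apply, Prod.snd_add, add_mul, Finset.sum_add_distrib]
  ring

@[simp] lemma pr_zero (r : Lat ι) : pr r 0 = 0 := by simp [pr]

@[simp] lemma pr_zero_left (m : Lat ι) : pr 0 m = 0 := by simp [pr]

lemma pr_neg (r m : Lat ι) : pr r (-m) = - pr r m := by
  simp only [pr, Prod.fst_neg, Pi.neg_apply, Prod.snd_neg, mul_neg, Finset.sum_neg_distrib]
  ring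

lemma pr_sub (r m m' : Lat ι) : pr r (m - m') = pr r m - pr r m' := by
  rw [sub_eq_add_neg, pr_add, pr_neg]; ring

lemma pr_smul (k : ℤ) (r m : Lat ι) : pr r (k • m) = k * pr r m := by
  simp only [pr, Prod.smul_fst, Pi.smul_apply, Prod.smul_snd, smul_eq_mul, mul_add,
    Finset.mul_sum]
  congr 1
  · exact Finset.sum_congr rfl fun i _ => by ring
  · ring

lemma pr_smul_left (k : ℤ) (r m : Lat ι) : pr (k • r) m = k * pr r m := by
  simp only [pr, Prod.smul_fst, Pi.smul_apply, Prod.smul_snd, smul_eq_mul, mul_add,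
    Finset.mul_sum]
  congr 1
  · exact Finset.sum_congr rfl fun i _ => by ring
  · ring

lemma pr_sum {α : Type} (s : Finset α) (r : Lat ι) (f : α → Lat ι) :
    pr r (∑ l ∈ s, f l) = ∑ l ∈ s, pr r (f l) := by
  classical
  induction s using Finset.induction_on with
  | empty => simp
  | insert a s ha ih => rw [Finset.sum_insert ha, Finset.sum_insert ha, pr_add, ih]

lemma pr_sum_left {α : Type} (s : Finset α) (m : Lat ι) (f : α → Lat ι) :
    pr (∑ l ∈ s, f l) m = ∑ l ∈ s, pr (f l) m := by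
  classical
  induction s using Finset.induction_on with
  | empty => simp
  | insert a s ha ih => rw [Finset.sum_insert ha, Finset.sum_insert ha, pr_add_left, ih]

/-- A smooth fan which refines the fan of the projective space over a discrete valuation ring, with
the vertices `H t` (of degree `D`) of a strictly convex support function `φ`. The rays are `r l`, the
maximal cones are generated by the rays `r l`, `l ∈ S t`, with the dual basis `y t l`. -/
structure Fan (ι : Type) [Fintype ι] [DecidableEq ι] where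
  Λ : Type
  T : Type
  [fΛ : Fintype Λ]
  [dΛ : DecidableEq Λ]
  [fT : Fintype T]
  r : Λ → Lat ι
  S : T → Finset Λ
  y : T → Λ → Lat ι
  s : T → ι
  H : T → Lat ι
  φ : Λ → ℤ
  D : ℤ
  w0 : ∀ l i, 0 ≤ (r l).1 i
  N0 : ∀ l, 0 ≤ (r l).2
  ws : ∀ t, ∀ l ∈ S t, (r l).1 (s t) = 0
  degy : ∀ t, ∀ l ∈ S t, deg (y t l) = 0
  dual : ∀ t, ∀ l ∈ S t, ∀ l' ∈ S t, pr (r l') (y t l) = if l' = l then 1 else 0
  exp : ∀ t m, deg m = 0 → m = ∑ l ∈ S t, pr (r l) m • y t l
  degH : ∀ t, deg (H t) = D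
  Dpos : 1 ≤ D
  Hin : ∀ t, ∀ l ∈ S t, pr (r l) (H t) = φ l
  Hout : ∀ t l, l ∉ S t → φ l + 1 ≤ pr (r l) (H t)
  φ0 : ∀ l, 0 ≤ φ l
  φN : ∀ l, (r l).2 = 0 → φ l = 0
  hor : ∀ i, ∃ l, (r l).2 = 0 ∧ ∀ m, pr (r l) m = m.1 i
  ver : ∃ l, ∀ m, pr (r l) m = m.2
  cov : ∀ P : Lat ι → Prop, P 0 → (∀ a b, P a → P b → P (a + b)) → (∀ a, deg a = 0 → P a ∨ P (-a)) →
    P (0, 1) → ∃ t, ∀ l ∈ S t, P (y t l)

attribute [instance] Fan.fΛ Fan.dΛ Fan.fT

section blow

variable [DecidableEq ι] (Φ : Fan ι)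

/-- The rays of a cone of the blowup. -/
def bS (i j : Φ.Λ) (q : Φ.T × Bool) : Finset (Option Φ.Λ) :=
  if i ∈ Φ.S q.1 ∧ j ∈ Φ.S q.1 then
    insert none (((Φ.S q.1).erase (if q.2 then i else j)).map Function.Embedding.some)
  else (Φ.S q.1).map Function.Embedding.some

/-- The dual bases of the blowup. -/
def bY (i j : Φ.Λ) (q : Φ.T × Bool) : Option Φ.Λ → Lat ι
  | none => Φ.y q.1 (if q.2 then i else j)
  | some l =>
    if i ∈ Φ.S q.1 ∧ j ∈ Φ.S q.1 then
      (if l = (if q.2 then j else i) then Φ.y q.1 l - Φ.y q.1 (if q.2 then i else j) else Φ.y q.1 l)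
    else Φ.y q.1 l

/-- The vertices of the blowup. -/
def bH (i j : Φ.Λ) (k : ℤ) (q : Φ.T × Bool) : Lat ι :=
  k • Φ.H q.1 + (if i ∈ Φ.S q.1 ∧ j ∈ Φ.S q.1 then Φ.y q.1 (if q.2 then i else j) else 0)

/-- The rays of the blowup. -/
def bR (i j : Φ.Λ) : Option Φ.Λ → Lat ι
  | none => Φ.r i + Φ.r j
  | some l => Φ.r l

/-- The support function of the blowup. -/
def bφ (i j : Φ.Λ) (k : ℤ) : Option Φ.Λ → ℤ
  | none => k * (Φ.φ i + Φ.φ j) + 1
  | some l => k * Φ.φ l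

lemma mem_bS_some {i j : Φ.Λ} {q : Φ.T × Bool} {l : Φ.Λ} :
    some l ∈ bS Φ i j q ↔ l ∈ Φ.S q.1 ∧
      (i ∈ Φ.S q.1 ∧ j ∈ Φ.S q.1 → l ≠ (if q.2 then i else j)) := by
  unfold bS
  split_ifs with h h2 <;> simp [h, and_comm]

lemma mem_bS_none {i j : Φ.Λ} {q : Φ.T × Bool} :
    none ∈ bS Φ i j q ↔ i ∈ Φ.S q.1 ∧ j ∈ Φ.S q.1 := by
  unfold bS
  split_ifs with h h2 <;> simp [h]

lemma exists_k (i j : Φ.Λ) : ∃ k : ℤ, 2 ≤ k ∧ ∀ t l, |pr (Φ.r l) (Φ.y t i)| + 2 ≤ k ∧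
    |pr (Φ.r l) (Φ.y t j)| + 2 ≤ k := by
  refine ⟨2 + ∑ t, ∑ l, (|pr (Φ.r l) (Φ.y t i)| + |pr (Φ.r l) (Φ.y t j)|), ?_, ?_⟩
  · have : 0 ≤ ∑ t, ∑ l, (|pr (Φ.r l) (Φ.y t i)| + |pr (Φ.r l) (Φ.y t j)|) :=
      Finset.sum_nonneg fun t _ => Finset.sum_nonneg fun l _ => by positivity
    omega
  · intro t l
    have h1 : |pr (Φ.r l) (Φ.y t i)| + |pr (Φ.r l) (Φ.y t j)| ≤
        ∑ l, (|pr (Φ.r l) (Φ.y t i)| + |pr (Φ.r l) (Φ.y t j)|) :=
      Finset.single_le_sum (f := fun l => |pr (Φ.r l) (Φ.y t i)| + |pr (Φ.r l) (Φ.y t j)|)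
        (fun l _ => by positivity) (Finset.mem_univ l)
    have h2 : ∑ l, (|pr (Φ.r l) (Φ.y t i)| + |pr (Φ.r l) (Φ.y t j)|) ≤
        ∑ t, ∑ l, (|pr (Φ.r l) (Φ.y t i)| + |pr (Φ.r l) (Φ.y t j)|) :=
      Finset.single_le_sum (f := fun t => ∑ l, (|pr (Φ.r l) (Φ.y t i)| + |pr (Φ.r l) (Φ.y t j)|))
        (fun t _ => Finset.sum_nonneg fun l _ => by positivity) (Finset.mem_univ t)
    have h3 := abs_nonneg (pr (Φ.r l) (Φ.y t i))
    have h4 := abs_nonneg (pr (Φ.r l) (Φ.y t j))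
    constructor <;> omega

end blow

end Pool.Agent.K9h37.TN
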