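import Pool.Agent.K9h37.TN.LocMod
import Pool.Agent.TH214.RM.Fin
import Pool.Agent.W418.Diag3

set_option autoImplicit false
set_option linter.unusedVariables false
set_option linter.unusedSectionVars false

open scoped Pointwise

namespace Pool.Agent.K9h37.TN

open Pool.Agent.H918R2.Quad Pool.Agent.H945R2.E Pool.Agent.H945R2.D Pool.Agent.W418
  Pool.Agent.TH214.RM MvPolynomial

section scale

variable {O F : Type} [CommRing O] [Field F] [Algebra O F]

theorem range_scale {ι : Type} (x : ι → F) (c : F) (D : ℕ) (y : F)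
    (hy : y ∈ Submodule.span O (Set.range (fun i => c * x i) ^ D)) :
    ∃ z ∈ Submodule.span O (Set.range x ^ D), y = c ^ D * z := by
  have key : ∀ D, ∀ g ∈ Set.range (fun i => c * x i) ^ D, ∃ h ∈ Set.range x ^ D, g = c ^ D * h := by
    intro D
    induction D with
    | zero =>
      intro g hg
      rw [pow_zero, Set.mem_one] at hg
      exact ⟨1, by simp, by rw [hg]; simp⟩
    | succ D ih =>
      intro g hg
      rw [pow_succ, Set.mem_mul] at hg
      obtain ⟨a, ha, _, ⟨i, rfl⟩, rfl⟩ := hg
      obtain ⟨h, hh, rfl⟩ := ih a ha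
      refine ⟨h * x i, by rw [pow_succ]; exact Set.mul_mem_mul hh ⟨i, rfl⟩, ?_⟩
      simp only
      ring
  induction hy using Submodule.span_induction with
  | mem y hy =>
    obtain ⟨h, hh, rfl⟩ := key D y hy
    exact ⟨h, Submodule.subset_span hh, rfl⟩
  | zero => exact ⟨0, Submodule.zero_mem _, by rw [mul_zero]⟩
  | add a b _ _ ha hb =>
    obtain ⟨a', ha', rfl⟩ := ha
    obtain ⟨b', hb', rfl⟩ := hb
    exact ⟨a' + b', Submodule.add_mem _ ha' hb', by ring⟩
  | smul r a _ ha =>
    obtain ⟨a', ha', rfl⟩ := ha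
    exact ⟨r • a', Submodule.smul_mem _ _ ha', by rw [mul_smul_comm]⟩

/-- The existence of local modules does not change if all coordinates are multiplied by the same
element of the function field. -/
theorem locMod_mul (𝔭 : Ideal O) [𝔭.IsPrime] {ι : Type} (x : ι → F) (c : F) (hc : c ≠ 0)
    (h : LocMod 𝔭 (fun i => c * x i)) : LocMod 𝔭 x := by
  have h1𝔭 : (1 : O) ∉ 𝔭 := (Ideal.ne_top_iff_one 𝔭).1 Ideal.IsPrime.ne_top'
  obtain ⟨D₀, hD₀⟩ := h
  refine ⟨D₀, fun D hD => ?_⟩
  obtain ⟨P, hP1, ⟨k, hP2⟩, hP3⟩ := hD₀ D hD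
  have hcD : c ^ D ≠ 0 := pow_ne_zero D hc
  have hx : ∀ i, x i = c⁻¹ * (c * x i) := fun i => by field_simp
  let L : F →ₗ[O] F := LinearMap.mulLeft O (c ^ D)
  have hL : ∀ y, L y = c ^ D * y := fun y => rfl
  refine ⟨P.comap L, ?_, ⟨k, ?_⟩, ?_⟩
  · intro y hy
    obtain ⟨s, hs, hsy⟩ := hP1 (L y) hy
    refine ⟨s, hs, ?_⟩
    obtain ⟨z, hz, hyz⟩ := range_scale x c D _ hsy
    have h2 : s • y = z := by
      have h3 : c ^ D * (s • y) = c ^ D * z := by rw [← hyz, hL, mul_smul_comm]
      exact mul_left_cancel₀ hcD h3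
    rw [h2]
    exact hz
  · intro r hr y hy
    have h2 : y ∈ Submodule.span O (Set.range (fun i => c⁻¹ * (c * x i)) ^ D) := by
      have h3 : (fun i => c⁻¹ * (c * x i)) = x := by
        funext i
        exact (hx i).symm
      rw [h3]
      exact hy
    obtain ⟨z, hz, rfl⟩ := range_scale (fun i => c * x i) c⁻¹ D _ h2
    have h3 := hP2 r hr z hz
    change L (r • (c⁻¹ ^ D * z)) ∈ P
    have h4 : L (r • (c⁻¹ ^ D * z)) = r • z := by
      rw [hL, mul_smul_comm, ← mul_assoc, ← mul_pow, mul_inv_cancel₀ hc, one_pow, one_mul]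
    rw [h4]
    exact h3
  · intro M hM hM2
    have hreg := hP3 P le_rfl fun y hy => ⟨1, h1𝔭, by rw [one_smul]; exact hy⟩
    refine regAt_congr 𝔭 P M (c ^ D) hcD ?_ ?_ hreg
    · intro y hy
      exact ⟨1, h1𝔭, by rw [one_smul]; exact hM hy⟩
    · intro y hy
      refine hM2 _ ?_
      change L _ ∈ P
      rw [hL, ← mul_assoc, mul_inv_cancel₀ hcD, one_mul]
      exact hy

end scale

section ne

variable {R F ι : Type} [CommRing R] [IsDomain R] [Field F] [Algebra R F] [Fintype ι]
  [DecidableEq ι]

open Classical in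
/-- The coordinates of a hypersurface with a convenient equation are not zero. -/
theorem coord_ne_zero [Nontrivial ι] (G : MvPolynomial ι R) (d : ℕ) (hGd : G.IsHomogeneous d)
    (hd : ∀ i, G.coeff (Finsupp.single i d) ≠ 0) (x : ι → F) (hrel : aeval x G = 0)
    (hx : ∃ s, x s ≠ 0)
    (hind : ∀ s, x s ≠ 0 → ∃ j₀ : {i : ι // i ≠ s},
      AlgebraicIndependent R (fun i : {i : {i : ι // i ≠ s} // i ≠ j₀} => x i / x s)) (i : ι) :
    x i ≠ 0 := by
  intro h0
  obtain ⟨s, hs⟩ := hx
  have his : i ≠ s := by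
    rintro rfl
    exact hs h0
  obtain ⟨j₀, hj₀⟩ := hind s hs
  have hij : j₀ = ⟨i, his⟩ := by
    by_contra h
    have h1 := hj₀.ne_zero ⟨⟨i, his⟩, Ne.symm h⟩
    simp only [h0, zero_div] at h1
    exact h1 rfl
  -- the restriction of `G` to `X i = 0`
  let ρ : ι → MvPolynomial {j : {j : ι // j ≠ s} // j ≠ j₀} R := fun j =>
    if h : j = s then 1 else if h' : (⟨j, h⟩ : {j : ι // j ≠ s}) = j₀ then 0 else
      X ⟨⟨j, h⟩, h'⟩
  have hρ : ∀ j, aeval (fun i : {i : {i : ι // i ≠ s} // i ≠ j₀} => x i / x s) (ρ j) =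
      x j / x s := by
    intro j
    simp only [ρ]
    split_ifs with h h'
    · rw [h, map_one, div_self hs]
    · rw [map_zero]
      have h2 : j = i := congrArg Subtype.val (h'.trans hij)
      rw [h2, h0, zero_div]
    · rw [aeval_X]
  have h1 : aeval ρ G = 0 := by
    apply hj₀
    rw [map_zero]
    have h2 : aeval (fun i : {i : {i : ι // i ≠ s} // i ≠ j₀} => x i / x s) (aeval ρ G) =
        aeval (fun j => x j / x s) G := by
      rw [← AlgHom.comp_apply]
      congr 1
      apply MvPolynomial.algHom_ext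
      intro j
      rw [AlgHom.comp_apply, aeval_X, aeval_X, hρ]
    rw [h2]
    have h3 : (fun j => x j / x s) = fun j => x j * (x s)⁻¹ := by
      funext j
      rw [div_eq_mul_inv]
    rw [h3, aeval_scale x _ d G hGd, hrel, zero_mul]
  -- the constant term
  have h2 : constantCoeff (aeval ρ G) = G.coeff (Finsupp.single s d) := by
    have h3 : constantCoeff (aeval ρ G) = aeval (fun j : ι => if j = s then (1 : R) else 0) G := by
      have h4 : (constantCoeff : MvPolynomial {j : {j : ι // j ≠ s} // j ≠ j₀} R →+* R)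
          (aeval ρ G) = (eval₂Hom (RingHom.id R) (fun j : ι => if j = s then (1 : R) else 0)) G := by
        have h5 : ((constantCoeff : MvPolynomial {j : {j : ι // j ≠ s} // j ≠ j₀} R →+* R).comp
            ((aeval ρ : MvPolynomial ι R →ₐ[R] _) : _ →+* _)) =
            (eval₂Hom (RingHom.id R) (fun j : ι => if j = s then (1 : R) else 0)) := by
          apply MvPolynomial.ringHom_ext
          · intro r
            simp
          · intro j
            simp only [RingHom.comp_apply, RingHom.coe_coe, aeval_X, coe_eval₂Hom, eval₂_X, ρ]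
            split_ifs <;> simp
        exact congrArg (fun f => f G) h5
      rw [h4]
      rfl
    rw [h3, aeval_def, eval₂_eq', Finset.sum_eq_single (Finsupp.single s d)]
    · rw [Finset.prod_eq_one, mul_one]
      · rfl
      · intro j _
        by_cases hj : j = s
        · rw [if_pos hj, one_pow]
        · rw [Finsupp.single_eq_of_ne hj, pow_zero]
    · intro a ha hne
      have hsum := sum_of_homog G d hGd a ha
      obtain ⟨j, hj, hja⟩ : ∃ j, j ≠ s ∧ a j ≠ 0 := by
        by_contra hcon
        push Not at hcon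
        apply hne
        ext j
        by_cases hj : j = s
        · subst hj
          rw [Finsupp.single_eq_same, ← hsum, Finset.sum_eq_single j]
          · intro b _ hb
            exact hcon b hb
          · simp
        · rw [Finsupp.single_eq_of_ne hj, hcon j hj]
      rw [Finset.prod_eq_zero (Finset.mem_univ j), mul_zero]
      rw [if_neg hj, zero_pow hja]
    · intro h
      rw [notMem_support_iff.1 h, map_zero, zero_mul]
  rw [h1, map_zero] at h2
  exact hd s h2.symm

end ne

end Pool.Agent.K9h37.TN
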