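import Pool.Agent.K9h37.TN.Fin

set_option autoImplicit false
set_option linter.unusedVariables false
set_option linter.unusedSectionVars false

open MvPolynomial

namespace Pool.Agent.K9h37.TN

open Pool.Agent.TH214.RM

theorem eval_init {k ι : Type} [Field k] [Fintype ι] (B : Finset (ι →₀ ℕ)) (c : (ι →₀ ℕ) → k)
    (ξ : ι → k) : eval ξ (∑ a ∈ B, monomial a (c a)) = ∑ a ∈ B, c a * ∏ i, ξ i ^ a i := by
  rw [map_sum]
  refine Finset.sum_congr rfl fun a _ => ?_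
  rw [eval_monomial, Finsupp.prod_fintype]
  intro i
  rw [pow_zero]

theorem eval_pderiv_init {k ι : Type} [Field k] [Fintype ι] (B : Finset (ι →₀ ℕ))
    (c : (ι →₀ ℕ) → k) (ξ : ι → k) (i : ι) :
    ξ i * eval ξ (pderiv i (∑ a ∈ B, monomial a (c a))) =
      ∑ a ∈ B, (a i : k) * (c a * ∏ i, ξ i ^ a i) := by
  have h1 : ξ i * eval ξ (pderiv i (∑ a ∈ B, monomial a (c a))) =
      eval ξ (X i * pderiv i (∑ a ∈ B, monomial a (c a))) := by
    rw [map_mul, eval_X]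
  rw [h1, map_sum, Finset.mul_sum, map_sum]
  refine Finset.sum_congr rfl fun a _ => ?_
  rw [X_mul_pderiv_monomial, map_nsmul, eval_monomial, Finsupp.prod_fintype, nsmul_eq_mul]
  intro i
  rw [pow_zero]

theorem ndr_of_init {R ι : Type} [CommRing R] [Fintype ι] (𝔭 : Ideal R) (A : Finset (ι →₀ ℕ))
    (ε : (ι →₀ ℕ) → R) (v : (ι →₀ ℕ) → ℕ)
    (h : ∀ (N : ℕ) (w : ι → ℕ), 1 ≤ N → ∀ (k : Type) [Field k] (ψ : R →+* k),
      RingHom.ker ψ = 𝔭 → ∀ ξ : ι → k, (∀ i, ξ i ≠ 0) →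
      eval ξ (∑ a ∈ A.filter (fun a => ∀ b ∈ A, N * v a + ∑ i, w i * a i ≤
        N * v b + ∑ i, w i * b i), monomial a (ψ (ε a))) = 0 →
      ∃ i, eval ξ (pderiv i (∑ a ∈ A.filter (fun a => ∀ b ∈ A, N * v a + ∑ i, w i * a i ≤
        N * v b + ∑ i, w i * b i), monomial a (ψ (ε a)))) ≠ 0) : NDR 𝔭 A ε v := by
  intro N w hN k _ ψ hψ ξ hξ h0
  rw [← eval_init] at h0
  obtain ⟨i, hi⟩ := h N w hN k ψ hψ ξ hξ h0
  refine ⟨i, ?_⟩
  rw [← eval_pderiv_init]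
  exact mul_ne_zero (hξ i) hi

theorem smooth_diag {K : Type} [Field K] [CharZero K] {n m : ℕ} (hm : 1 ≤ m) (c : Fin n → K)
    (hc : ∀ i, c i ≠ 0) : Smooth (diag m c) := by
  intro i
  refine ⟨m, ?_⟩
  have h1 : pderiv i (diag m c) = C (c i * m) * X i ^ (m - 1) := by
    rw [diag, map_sum, Finset.sum_eq_single i]
    · rw [pderiv_C_mul, pderiv_pow, pderiv_X_self, C_mul, map_natCast]
      ring
    · intro j _ hj
      rw [pderiv_C_mul, pderiv_pow, pderiv_X_of_ne hj, mul_zero, mul_zero]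
    · simp
  have h2 : c i * m ≠ 0 := mul_ne_zero (hc i) (Nat.cast_ne_zero.2 (by omega))
  have h3 : (X i ^ m : MvPolynomial (Fin n) K) = (C (c i * m)⁻¹ * X i) * pderiv i (diag m c) := by
    rw [h1]
    have h4 : (C (c i * m)⁻¹ * X i * (C (c i * m) * X i ^ (m - 1)) : MvPolynomial (Fin n) K) =
        C ((c i * m)⁻¹ * (c i * m)) * (X i ^ (m - 1) * X i) := by
      rw [C_mul (a := (c i * m)⁻¹)]
      generalize C (c i * (m : K))⁻¹ = p
      generalize C (c i * (m : K)) = q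
      ring
    rw [h4, inv_mul_cancel₀ h2, C_1, one_mul, ← pow_succ]
    congr 1
    omega
  rw [h3]
  exact Ideal.mul_mem_left _ _ (Ideal.subset_span ⟨i, rfl⟩)

open NumberField in
theorem rat_notMem_sq (n : ℕ) (hn : Squarefree n) (𝔭 : Ideal (𝓞 ℚ)) (hp : 𝔭.IsPrime) :
    (n : 𝓞 ℚ) ∉ 𝔭 ^ 2 := by
  intro h
  let φ : 𝓞 ℚ ≃+* ℤ := Rat.ringOfIntegersEquiv
  let I : Ideal ℤ := 𝔭.comap φ.symm.toRingHom
  have hI : I.IsPrime := Ideal.comap_isPrime _ _
  have hφ : ∀ x ∈ 𝔭 ^ 2, φ x ∈ I ^ 2 := by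
    intro x hx
    have h1 : (𝔭 ^ 2).map φ.toRingHom ≤ I ^ 2 := by
      rw [Ideal.map_pow]
      refine Ideal.pow_right_mono ?_ 2
      rw [Ideal.map_le_iff_le_comap]
      intro y hy
      change φ.symm (φ y) ∈ 𝔭
      rwa [φ.symm_apply_apply]
    exact h1 (Ideal.mem_map_of_mem _ hx)
  have h1 : (n : ℤ) ∈ I ^ 2 := by
    have h2 := hφ _ h
    rwa [map_natCast] at h2
  obtain ⟨a, ha⟩ := (IsPrincipalIdealRing.principal I).principal
  have ha' : I = Ideal.span {a} := ha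
  rw [ha', Ideal.span_singleton_pow, Ideal.mem_span_singleton, pow_two] at h1
  have h2 : Squarefree (n : ℤ) := Int.squarefree_natCast.2 hn
  have h3 := h2 a h1
  exact hI.ne_top (by rw [ha']; exact Ideal.span_singleton_eq_top.2 h3)

end Pool.Agent.K9h37.TN
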