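import Pool.Agent.K9h37.TN.Ref
import Pool.Agent.H918R2.Quad.Loc

set_option autoImplicit false
set_option linter.unusedVariables false
set_option linter.unusedSectionVars false

namespace Pool.Agent.K9h37.TN

open Pool.Agent.H918R2.Quad

section val

variable {F : Type} [Field F]

theorem isUnit_iff_U (𝒪 : Subring F) (a : 𝒪) : IsUnit a ↔ U 𝒪 (a : F) := by
  constructor
  · rintro ⟨u, rfl⟩
    have h1 : ((u : 𝒪) : F) * (((u⁻¹ : 𝒪ˣ) : 𝒪) : F) = 1 := by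
      rw [← Subring.coe_mul, Units.mul_inv, Subring.coe_one]
    refine ⟨left_ne_zero_of_mul_eq_one h1, (u : 𝒪).2, ?_⟩
    rw [inv_eq_of_mul_eq_one_right h1]
    exact ((u⁻¹ : 𝒪ˣ) : 𝒪).2
  · rintro ⟨h0, h1, h2⟩
    refine IsUnit.of_mul_eq_one ⟨(a : F)⁻¹, h2⟩ ?_
    apply Subtype.ext
    simp [h0]

/-- A local subring of a field is dominated by a valuation ring. -/
theorem exists_val (𝒪 : Subring F) (hloc : IsLoc 𝒪) : ∃ V : ValuationSubring F,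
    (∀ x ∈ 𝒪, x ∈ V) ∧ ∀ x ∈ 𝒪, x ≠ 0 → x⁻¹ ∈ V → U 𝒪 x := by
  have hl : IsLocalRing 𝒪 := by
    refine IsLocalRing.of_isUnit_or_isUnit_of_isUnit_add fun a b h => ?_
    rw [isUnit_iff_U, Subring.coe_add] at h
    rw [isUnit_iff_U, isUnit_iff_U]
    exact hloc _ _ a.2 b.2 h
  obtain ⟨V, hV⟩ := LocalSubring.exists_le_valuationSubring (LocalSubring.mk 𝒪)
  obtain ⟨hle, hh⟩ := hV
  refine ⟨V, fun x hx => hle hx, fun x hx h0 hi => ?_⟩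
  have hxV : x ∈ V := hle hx
  have h1 : IsUnit (Subring.inclusion hle ⟨x, hx⟩) := by
    refine IsUnit.of_mul_eq_one ⟨x⁻¹, hi⟩ ?_
    apply Subtype.ext
    change x * x⁻¹ = 1
    exact mul_inv_cancel₀ h0
  have h2 := hh.map_nonunit _ h1
  exact (isUnit_iff_U 𝒪 ⟨x, hx⟩).1 h2

end val

section mo

variable {F ι : Type} [Field F] [Fintype ι]

/-- The element `π ^ h x ^ a` of `F`. -/
noncomputable def mo (ϖ : F) (x : ι → F) (m : Lat ι) : F := ϖ ^ m.2 * ∏ i, x i ^ m.1 i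

variable {ϖ : F} {x : ι → F}

theorem mo_zero : mo ϖ x 0 = 1 := by simp [mo]

theorem mo_pi : mo ϖ x (0, 1) = ϖ := by simp [mo]

theorem mo_ne_zero (hϖ : ϖ ≠ 0) (hx : ∀ i, x i ≠ 0) (m : Lat ι) : mo ϖ x m ≠ 0 :=
  mul_ne_zero (zpow_ne_zero _ hϖ) (Finset.prod_ne_zero_iff.2 fun i _ => zpow_ne_zero _ (hx i))

theorem mo_add (hϖ : ϖ ≠ 0) (hx : ∀ i, x i ≠ 0) (m m' : Lat ι) :
    mo ϖ x (m + m') = mo ϖ x m * mo ϖ x m' := by
  simp only [mo, Prod.snd_add, Prod.fst_add, Pi.add_apply]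
  rw [zpow_add₀ hϖ]
  simp only [zpow_add₀ (hx _), Finset.prod_mul_distrib]
  ring

theorem mo_neg (hϖ : ϖ ≠ 0) (hx : ∀ i, x i ≠ 0) (m : Lat ι) : mo ϖ x (-m) = (mo ϖ x m)⁻¹ := by
  apply eq_inv_of_mul_eq_one_left
  rw [← mo_add hϖ hx, neg_add_cancel, mo_zero]

theorem mo_sub (hϖ : ϖ ≠ 0) (hx : ∀ i, x i ≠ 0) (m m' : Lat ι) :
    mo ϖ x (m - m') = mo ϖ x m / mo ϖ x m' := by
  rw [sub_eq_add_neg, mo_add hϖ hx, mo_neg hϖ hx, div_eq_mul_inv]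

theorem mo_nsmul (hϖ : ϖ ≠ 0) (hx : ∀ i, x i ≠ 0) (m : Lat ι) (n : ℕ) :
    mo ϖ x (n • m) = mo ϖ x m ^ n := by
  induction n with
  | zero => rw [zero_smul, mo_zero, pow_zero]
  | succ n ih => rw [succ_nsmul, mo_add hϖ hx, ih, pow_succ]

theorem mo_sum (hϖ : ϖ ≠ 0) (hx : ∀ i, x i ≠ 0) {α : Type} (s : Finset α) (f : α → Lat ι) :
    mo ϖ x (∑ a ∈ s, f a) = ∏ a ∈ s, mo ϖ x (f a) := by
  classical
  induction s using Finset.induction_on with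
  | empty => simp [mo_zero]
  | insert a s ha ih => rw [Finset.sum_insert ha, Finset.prod_insert ha, mo_add hϖ hx, ih]

variable [DecidableEq ι]

/-- The monomial in the coordinates of a chart. -/
theorem mo_chart (hϖ : ϖ ≠ 0) (hx : ∀ i, x i ≠ 0) (Φ : Fan ι) (t : Φ.T) (m : Lat ι)
    (hm : deg m = 0) (h0 : ∀ l ∈ Φ.S t, 0 ≤ pr (Φ.r l) m) :
    mo ϖ x m = ∏ l ∈ Φ.S t, mo ϖ x (Φ.y t l) ^ (pr (Φ.r l) m).toNat := by
  conv_lhs => rw [Φ.exp t m hm]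
  rw [mo_sum hϖ hx]
  refine Finset.prod_congr rfl fun l hl => ?_
  rw [← mo_nsmul hϖ hx]
  congr 1
  conv_lhs => rw [← Int.toNat_of_nonneg (h0 l hl)]
  rw [natCast_zsmul]

/-- The exponents of the model in degree `k D + e`. -/
def Ad (Φ : Fan ι) (k e : ℕ) (m : Lat ι) : Prop :=
  deg m = k * Φ.D + e ∧ ∀ l, k * Φ.φ l ≤ pr (Φ.r l) m

/-- The vertex of the cone `t` in degree `k D + e`. -/
def vt (Φ : Fan ι) (k e : ℕ) (t : Φ.T) : Lat ι := (k : ℤ) • Φ.H t + (e : ℤ) • (Pi.single (Φ.s t) 1, 0)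

theorem pr_single (r : Lat ι) (i : ι) : pr r (Pi.single i 1, 0) = r.1 i := by
  simp [pr, Pi.single_apply]

theorem deg_single (i : ι) : deg ((Pi.single i 1, 0) : Lat ι) = 1 := by
  simp [deg]

theorem pr_vt_in (Φ : Fan ι) (k e : ℕ) (t : Φ.T) (l : Φ.Λ) (hl : l ∈ Φ.S t) :
    pr (Φ.r l) (vt Φ k e t) = k * Φ.φ l := by
  rw [vt, pr_add, pr_smul, pr_smul, pr_single, Φ.Hin t l hl, Φ.ws t l hl, mul_zero, add_zero]

theorem pr_vt_out (Φ : Fan ι) (k e : ℕ) (t : Φ.T) (l : Φ.Λ) (hl : l ∉ Φ.S t) :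
    k * Φ.φ l + k ≤ pr (Φ.r l) (vt Φ k e t) := by
  rw [vt, pr_add, pr_smul, pr_smul, pr_single]
  have h1 := Φ.Hout t l hl
  have h2 : (0 : ℤ) ≤ e * (Φ.r l).1 (Φ.s t) := mul_nonneg (by positivity) (Φ.w0 _ _)
  have h3 : (k : ℤ) * (Φ.φ l + 1) ≤ k * pr (Φ.r l) (Φ.H t) :=
    mul_le_mul_of_nonneg_left h1 (by positivity)
  linarith

theorem deg_vt (Φ : Fan ι) (k e : ℕ) (t : Φ.T) : deg (vt Φ k e t) = k * Φ.D + e := by
  rw [vt, deg_add, deg_smul, deg_smul, deg_single, Φ.degH, mul_one]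

theorem ad_vt (Φ : Fan ι) (k e : ℕ) (t : Φ.T) : Ad Φ k e (vt Φ k e t) := by
  refine ⟨deg_vt Φ k e t, fun l => ?_⟩
  by_cases hl : l ∈ Φ.S t
  · exact (pr_vt_in Φ k e t l hl).ge
  · have := pr_vt_out Φ k e t l hl
    linarith [Int.natCast_nonneg k]

theorem ad_vt_add (Φ : Fan ι) (k e : ℕ) (t : Φ.T) (l : Φ.Λ) (hl : l ∈ Φ.S t)
    (hk : ∀ l', |pr (Φ.r l') (Φ.y t l)| ≤ k) : Ad Φ k e (vt Φ k e t + Φ.y t l) := by
  refine ⟨by rw [deg_add, deg_vt, Φ.degy t l hl, add_zero], fun l' => ?_⟩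
  rw [pr_add]
  by_cases hl' : l' ∈ Φ.S t
  · rw [pr_vt_in Φ k e t l' hl', Φ.dual t l hl l' hl']
    split_ifs <;> omega
  · have h1 := pr_vt_out Φ k e t l' hl'
    have h2 := neg_abs_le (pr (Φ.r l') (Φ.y t l))
    have h3 := hk l'
    linarith

theorem exists_bound (Φ : Fan ι) : ∃ k₀ : ℕ, 1 ≤ k₀ ∧
    ∀ t l l', |pr (Φ.r l') (Φ.y t l)| ≤ (k₀ : ℤ) := by
  refine ⟨1 + ∑ t, ∑ l, ∑ l', (pr (Φ.r l') (Φ.y t l)).natAbs, by omega, fun t l l' => ?_⟩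
  have h1 : (pr (Φ.r l') (Φ.y t l)).natAbs ≤ ∑ l', (pr (Φ.r l') (Φ.y t l)).natAbs :=
    Finset.single_le_sum (f := fun l' => (pr (Φ.r l') (Φ.y t l)).natAbs)
      (fun _ _ => Nat.zero_le _) (Finset.mem_univ l')
  have h2 : ∑ l', (pr (Φ.r l') (Φ.y t l)).natAbs ≤
      ∑ l, ∑ l', (pr (Φ.r l') (Φ.y t l)).natAbs :=
    Finset.single_le_sum (f := fun l => ∑ l', (pr (Φ.r l') (Φ.y t l)).natAbs)
      (fun _ _ => Nat.zero_le _) (Finset.mem_univ l)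
  have h3 : ∑ l, ∑ l', (pr (Φ.r l') (Φ.y t l)).natAbs ≤
      ∑ t, ∑ l, ∑ l', (pr (Φ.r l') (Φ.y t l)).natAbs :=
    Finset.single_le_sum (f := fun t => ∑ l, ∑ l', (pr (Φ.r l') (Φ.y t l)).natAbs)
      (fun _ _ => Nat.zero_le _) (Finset.mem_univ t)
  rw [Int.abs_eq_natAbs]
  exact_mod_cast (h1.trans (h2.trans h3)).trans (by omega)

/-- The center of a local ring lies in one of the charts. -/
theorem exists_chart (hϖ : ϖ ≠ 0) (hx : ∀ i, x i ≠ 0) (Φ : Fan ι) (𝒪 : Subring F)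
    (hloc : IsLoc 𝒪) (hϖ𝒪 : ϖ ∈ 𝒪) (k e : ℕ)
    (hk : ∀ t l l', |pr (Φ.r l') (Φ.y t l)| ≤ (k : ℤ)) (f : F) (hf : f ≠ 0) (m : Lat ι)
    (hm : Ad Φ k e m) (hU : U 𝒪 (mo ϖ x m / f)) (hG : ∀ m, Ad Φ k e m → mo ϖ x m / f ∈ 𝒪) :
    ∃ t, U 𝒪 (f / mo ϖ x (vt Φ k e t)) ∧ ∀ l ∈ Φ.S t, mo ϖ x (Φ.y t l) ∈ 𝒪 := by
  obtain ⟨V, hV1, hV2⟩ := exists_val 𝒪 hloc
  obtain ⟨t, ht⟩ := Φ.cov (fun m => mo ϖ x m ∈ V) (by rw [mo_zero]; exact V.one_mem)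
    (fun a b ha hb => by
      rw [mo_add hϖ hx]; exact V.mul_mem _ _ ha hb)
    (fun a _ => by
      rw [mo_neg hϖ hx]
      exact V.mem_or_inv_mem _)
    (by rw [mo_pi]; exact hV1 _ hϖ𝒪)
  have hm0 := mo_ne_zero hϖ hx m
  have hv0 := mo_ne_zero hϖ hx (vt Φ k e t)
  have h1 : mo ϖ x (vt Φ k e t) / f ∈ 𝒪 := hG _ (ad_vt Φ k e t)
  have h2 : U 𝒪 (mo ϖ x (vt Φ k e t) / f) := by
    refine hV2 _ h1 (div_ne_zero hv0 hf) ?_
    rw [inv_div]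
    have h3 : f / mo ϖ x (vt Φ k e t) = (mo ϖ x m / f)⁻¹ * mo ϖ x (m - vt Φ k e t) := by
      rw [mo_sub hϖ hx]
      field_simp
    rw [h3]
    refine V.mul_mem _ _ (hV1 _ hU.2.2) ?_
    rw [mo_chart hϖ hx Φ t]
    · exact prod_mem fun l hl => pow_mem (ht l hl) _
    · rw [deg_sub, hm.1, deg_vt, sub_self]
    · intro l hl
      rw [pr_sub, pr_vt_in Φ k e t l hl]
      have := hm.2 l
      linarith
  refine ⟨t, ?_, fun l hl => ?_⟩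
  · have := h2.inv
    rwa [inv_div] at this
  · have h3 : mo ϖ x (Φ.y t l) = (mo ϖ x (vt Φ k e t + Φ.y t l) / f) *
        (mo ϖ x (vt Φ k e t) / f)⁻¹ := by
      rw [mo_add hϖ hx]
      field_simp
    rw [h3]
    exact 𝒪.mul_mem (hG _ (ad_vt_add Φ k e t l hl (hk t l))) h2.2.2

end mo

end Pool.Agent.K9h37.TN
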