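import Pool.Agent.K9h37.TN.Blow

set_option autoImplicit false
set_option linter.unusedVariables false
set_option linter.unusedSectionVars false

namespace Pool.Agent.K9h37.TN

variable {ι : Type} [Fintype ι] [DecidableEq ι]

/-- The (integral) cones of a fan. -/
def Fan.C (Φ : Fan ι) (t : Φ.T) : AddSubmonoid (Lat ι) := AddSubmonoid.closure (Φ.r '' (Φ.S t))

/-- `Φ'` refines `Φ`. -/
def Ref (Φ' Φ : Fan ι) : Prop := ∀ t', ∃ t, Φ'.C t' ≤ Φ.C t

/-- `g` is additive on the cones of `Φ`. -/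
def Lin (Φ : Fan ι) (g : Lat ι → ℤ) : Prop := ∀ t, ∀ x ∈ Φ.C t, ∀ y ∈ Φ.C t, g (x + y) = g x + g y

/-- `g` has constant sign on the cones of `Φ`. -/
def Sgn (Φ : Fan ι) (g : Lat ι → ℤ) : Prop := ∀ t, (∀ x ∈ Φ.C t, 0 ≤ g x) ∨ (∀ x ∈ Φ.C t, g x ≤ 0)

lemma Ref.refl (Φ : Fan ι) : Ref Φ Φ := fun t => ⟨t, le_rfl⟩

lemma Ref.trans {Φ Φ' Φ'' : Fan ι} (h : Ref Φ'' Φ') (h' : Ref Φ' Φ) : Ref Φ'' Φ := fun t => by
  obtain ⟨t', ht'⟩ := h t
  obtain ⟨t'', ht''⟩ := h' t'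
  exact ⟨t'', ht'.trans ht''⟩

lemma Lin.mono {Φ Φ' : Fan ι} {g : Lat ι → ℤ} (h : Ref Φ' Φ) (hg : Lin Φ g) : Lin Φ' g := by
  intro t x hx y hy
  obtain ⟨t', ht'⟩ := h t
  exact hg t' x (ht' hx) y (ht' hy)

lemma Sgn.mono {Φ Φ' : Fan ι} {g : Lat ι → ℤ} (h : Ref Φ' Φ) (hg : Sgn Φ g) : Sgn Φ' g := by
  intro t
  obtain ⟨t', ht'⟩ := h t
  rcases hg t' with h1 | h1
  · exact Or.inl fun x hx => h1 x (ht' hx)
  · exact Or.inr fun x hx => h1 x (ht' hx)

lemma mem_C {Φ : Fan ι} {t : Φ.T} {l : Φ.Λ} (hl : l ∈ Φ.S t) : Φ.r l ∈ Φ.C t :=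
  AddSubmonoid.subset_closure ⟨l, by simpa using hl, rfl⟩

lemma Lin.zero {Φ : Fan ι} {g : Lat ι → ℤ} (hg : Lin Φ g) (t : Φ.T) : g 0 = 0 := by
  have := hg t 0 (zero_mem _) 0 (zero_mem _)
  simpa using this

lemma Lin.nonneg {Φ : Fan ι} {g : Lat ι → ℤ} (hg : Lin Φ g) (t : Φ.T)
    (h : ∀ l ∈ Φ.S t, 0 ≤ g (Φ.r l)) : ∀ x ∈ Φ.C t, 0 ≤ g x := by
  intro x hx
  induction hx using AddSubmonoid.closure_induction with
  | mem x hx =>
    obtain ⟨l, hl, rfl⟩ := hx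
    exact h l (by simpa using hl)
  | zero => exact (hg.zero t).ge
  | add x y hx hy h1 h2 =>
    rw [hg t x hx y hy]
    exact add_nonneg h1 h2

lemma Lin.nonpos {Φ : Fan ι} {g : Lat ι → ℤ} (hg : Lin Φ g) (t : Φ.T)
    (h : ∀ l ∈ Φ.S t, g (Φ.r l) ≤ 0) : ∀ x ∈ Φ.C t, g x ≤ 0 := by
  intro x hx
  induction hx using AddSubmonoid.closure_induction with
  | mem x hx =>
    obtain ⟨l, hl, rfl⟩ := hx
    exact h l (by simpa using hl)
  | zero => exact (hg.zero t).le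
  | add x y hx hy h1 h2 =>
    rw [hg t x hx y hy]
    exact add_nonpos h1 h2

/-- No conflict between horizontal rays. -/
def HP (g : Lat ι → ℤ) : Prop := ∀ x : Lat ι, x.2 = 0 → (∀ i, 0 ≤ x.1 i) → 0 ≤ g x

/-- The conflicts. -/
def Bad (Φ : Fan ι) (g : Lat ι → ℤ) (p : Φ.Λ × Φ.Λ) : Prop :=
  (∃ t, p.1 ∈ Φ.S t ∧ p.2 ∈ Φ.S t) ∧ 0 < g (Φ.r p.1) ∧ g (Φ.r p.2) < 0

/-- The weight of a conflict. -/
def wt (Φ : Fan ι) (g : Lat ι → ℤ) (p : Φ.Λ × Φ.Λ) : ℤ := g (Φ.r p.1) * (- g (Φ.r p.2))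

lemma ref_blow (Φ : Fan ι) (i j : Φ.Λ) (hij : i ≠ j) (hN : 0 < (Φ.r i).2 + (Φ.r j).2) (k : ℤ)
    (hk2 : 2 ≤ k) (hk : ∀ t l, |pr (Φ.r l) (Φ.y t i)| + 2 ≤ k ∧ |pr (Φ.r l) (Φ.y t j)| + 2 ≤ k) :
    Ref (Φ.blow i j hij hN k hk2 hk) Φ := by
  rintro ⟨t, b⟩
  refine ⟨t, ?_⟩
  refine AddSubmonoid.closure_le.2 ?_
  rintro x ⟨l, hl, rfl⟩
  have hl' : l ∈ bS Φ i j (t, b) := hl
  rcases l with _ | l
  · have h := (mem_bS_none Φ).1 hl'
    exact add_mem (mem_C h.1) (mem_C h.2)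
  · have h := (mem_bS_some Φ).1 hl'
    exact mem_C h.1

/-- One step of the algorithm. -/
lemma step (Φ : Fan ι) (g : Lat ι → ℤ) (hg : Lin Φ g) (hp : HP g) (M : ℤ)
    (hM : ∀ p, Bad Φ g p → wt Φ g p ≤ M) (p : Φ.Λ × Φ.Λ) (hb : Bad Φ g p) (hw : wt Φ g p = M) :
    ∃ Φ' : Fan ι, Ref Φ' Φ ∧ (∀ p, Bad Φ' g p → wt Φ' g p ≤ M) ∧
      {q : Φ'.Λ × Φ'.Λ | Bad Φ' g q ∧ wt Φ' g q = M}.ncard <
        {q : Φ.Λ × Φ.Λ | Bad Φ g q ∧ wt Φ g q = M}.ncard := by
  classical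
  obtain ⟨i, j⟩ := p
  obtain ⟨⟨t, hi, hj⟩, h1, h2⟩ := hb
  simp only at hi hj h1 h2
  have hij : i ≠ j := by
    rintro rfl
    omega
  have hN : 0 < (Φ.r i).2 + (Φ.r j).2 := by
    have h3 := Φ.N0 i
    have h4 := Φ.N0 j
    have h5 : (Φ.r j).2 ≠ 0 := by
      intro h5
      have := hp _ h5 (Φ.w0 j)
      omega
    omega
  obtain ⟨k, hk2, hk⟩ := exists_k Φ i j
  refine ⟨Φ.blow i j hij hN k hk2 hk, ref_blow Φ i j hij hN k hk2 hk, ?_⟩
  have hsum : g (Φ.r i + Φ.r j) = g (Φ.r i) + g (Φ.r j) := hg t _ (mem_C hi) _ (mem_C hj)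
  have hw' : g (Φ.r i) * (- g (Φ.r j)) = M := hw
  -- the bad pairs of the blowup
  have key : ∀ q : Option Φ.Λ × Option Φ.Λ, Bad (Φ.blow i j hij hN k hk2 hk) g q →
      (wt (Φ.blow i j hij hN k hk2 hk) g q < M) ∨
      ∃ q' : Φ.Λ × Φ.Λ, q' ≠ (i, j) ∧ Bad Φ g q' ∧ q = (some q'.1, some q'.2) := by
    rintro ⟨a, c⟩ ⟨⟨⟨t', b⟩, ha, hc⟩, h3, h4⟩
    have ha : a ∈ bS Φ i j (t', b) := ha
    have hc : c ∈ bS Φ i j (t', b) := hc
    have h3 : 0 < g (bR Φ i j a) := h3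
    have h4 : g (bR Φ i j c) < 0 := h4
    change (g (bR Φ i j a) * (- g (bR Φ i j c)) < M) ∨ _
    rcases a with _ | a
    · rcases c with _ | c
      · omega
      · left
        have ha' := (mem_bS_none Φ).1 ha
        have hc' := (mem_bS_some Φ).1 hc
        have h4 : g (Φ.r c) < 0 := h4
        change g (Φ.r i + Φ.r j) * (- g (Φ.r c)) < M
        rw [hsum]
        have h5 : Bad Φ g (i, c) := ⟨⟨t', ha'.1, hc'.1⟩, h1, h4⟩
        have h6 : g (Φ.r i) * (- g (Φ.r c)) ≤ M := hM _ h5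
        have h7 := mul_pos (neg_pos.2 h2) (neg_pos.2 h4)
        nlinarith
    · rcases c with _ | c
      · left
        have hc' := (mem_bS_none Φ).1 hc
        have ha' := (mem_bS_some Φ).1 ha
        have h3 : 0 < g (Φ.r a) := h3
        change g (Φ.r a) * (- g (Φ.r i + Φ.r j)) < M
        rw [hsum]
        have h5 : Bad Φ g (a, j) := ⟨⟨t', ha'.1, hc'.2⟩, h3, h2⟩
        have h6 : g (Φ.r a) * (- g (Φ.r j)) ≤ M := hM _ h5
        have h7 := mul_pos h3 h1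
        nlinarith
      · right
        have ha' := (mem_bS_some Φ).1 ha
        have hc' := (mem_bS_some Φ).1 hc
        refine ⟨(a, c), ?_, ⟨⟨t', ha'.1, hc'.1⟩, h3, h4⟩, rfl⟩
        intro h5
        rw [Prod.mk.injEq] at h5
        obtain ⟨rfl, rfl⟩ := h5
        have h6 := ha'.2 ⟨ha'.1, hc'.1⟩
        have h7 := hc'.2 ⟨ha'.1, hc'.1⟩
        cases b
        · simp at h7
        · simp at h6
  constructor
  · intro q hq
    rcases key q hq with h3 | ⟨q', h3, h4, h5⟩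
    · exact h3.le
    · have h6 := hM q' h4
      rw [h5]
      exact h6
  · have hfin : {q : Φ.Λ × Φ.Λ | Bad Φ g q ∧ wt Φ g q = M}.Finite := Set.toFinite _
    have hsub : {q : (Φ.blow i j hij hN k hk2 hk).Λ × (Φ.blow i j hij hN k hk2 hk).Λ |
        Bad (Φ.blow i j hij hN k hk2 hk) g q ∧ wt (Φ.blow i j hij hN k hk2 hk) g q = M} ⊆
        (fun q' : Φ.Λ × Φ.Λ => ((some q'.1, some q'.2) : Option Φ.Λ × Option Φ.Λ)) ''
          ({q : Φ.Λ × Φ.Λ | Bad Φ g q ∧ wt Φ g q = M} \ {(i, j)}) := by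
      rintro q ⟨hq, hq2⟩
      rcases key q hq with h3 | ⟨q', h3, h4, h5⟩
      · omega
      · refine ⟨q', ⟨⟨h4, ?_⟩, h3⟩, h5.symm⟩
        rw [← hq2, h5]
        rfl
    calc _ ≤ _ := Set.ncard_le_ncard hsub (Set.toFinite _)
      _ ≤ _ := Set.ncard_image_le (Set.toFinite _)
      _ < _ := Set.ncard_sdiff_singleton_lt_of_mem
        (show (i, j) ∈ {q : Φ.Λ × Φ.Λ | Bad Φ g q ∧ wt Φ g q = M} from
          ⟨⟨⟨t, hi, hj⟩, h1, h2⟩, hw'⟩) hfin

lemma lower (M : ℤ) (g : Lat ι → ℤ) (hp : HP g) : ∀ (n : ℕ) (Φ : Fan ι), Lin Φ g →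
    (∀ p, Bad Φ g p → wt Φ g p ≤ M) → {q : Φ.Λ × Φ.Λ | Bad Φ g q ∧ wt Φ g q = M}.ncard ≤ n →
    ∃ Φ' : Fan ι, Ref Φ' Φ ∧ (∀ p, Bad Φ' g p → wt Φ' g p ≤ M - 1) := by
  intro n
  induction n with
  | zero =>
    intro Φ hg hM hn
    refine ⟨Φ, Ref.refl Φ, fun p hb => ?_⟩
    have h1 := hM p hb
    have h2 : wt Φ g p ≠ M := by
      intro h2
      have h3 : p ∈ {q : Φ.Λ × Φ.Λ | Bad Φ g q ∧ wt Φ g q = M} := ⟨hb, h2⟩
      have h4 : {q : Φ.Λ × Φ.Λ | Bad Φ g q ∧ wt Φ g q = M}.ncard = 0 := by omega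
      rw [Set.ncard_eq_zero (Set.toFinite _)] at h4
      rw [h4] at h3
      exact h3
    omega
  | succ n ih =>
    intro Φ hg hM hn
    by_cases h : ∃ p, Bad Φ g p ∧ wt Φ g p = M
    · obtain ⟨p, hb, hw⟩ := h
      obtain ⟨Φ', h1, h2, h3⟩ := step Φ g hg hp M hM p hb hw
      obtain ⟨Φ'', h4, h5⟩ := ih Φ' (hg.mono h1) h2 (by omega)
      exact ⟨Φ'', h4.trans h1, h5⟩
    · refine ⟨Φ, Ref.refl Φ, fun p hb => ?_⟩
      have h1 := hM p hb
      have h2 : wt Φ g p ≠ M := fun h2 => h ⟨p, hb, h2⟩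
      omega

lemma noBad (g : Lat ι → ℤ) (hp : HP g) : ∀ (M : ℕ) (Φ : Fan ι), Lin Φ g →
    (∀ p, Bad Φ g p → wt Φ g p ≤ M) → ∃ Φ' : Fan ι, Ref Φ' Φ ∧ (∀ p, ¬ Bad Φ' g p) := by
  intro M
  induction M with
  | zero =>
    intro Φ hg hM
    refine ⟨Φ, Ref.refl Φ, fun p hb => ?_⟩
    have h1 := hM p hb
    obtain ⟨h2, h3, h4⟩ := hb
    have h5 : 0 < wt Φ g p := mul_pos h3 (by omega)
    simp only [Nat.cast_zero] at h1
    omega
  | succ M ih =>
    intro Φ hg hM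
    obtain ⟨Φ', h1, h2⟩ := lower (M + 1 : ℕ) g hp _ Φ hg hM le_rfl
    obtain ⟨Φ'', h3, h4⟩ := ih Φ' (hg.mono h1) (by
      intro p hb
      have := h2 p hb
      push_cast at this
      omega)
    exact ⟨Φ'', h3.trans h1, h4⟩

lemma sgn_of_noBad (Φ : Fan ι) (g : Lat ι → ℤ) (hg : Lin Φ g) (h : ∀ p, ¬ Bad Φ g p) :
    Sgn Φ g := by
  intro t
  by_cases h1 : ∃ l ∈ Φ.S t, 0 < g (Φ.r l)
  · obtain ⟨l, hl, h1⟩ := h1
    left
    refine hg.nonneg t fun l' hl' => ?_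
    by_contra h2
    exact h (l, l') ⟨⟨t, hl, hl'⟩, h1, not_le.1 h2⟩
  · right
    refine hg.nonpos t fun l hl => ?_
    by_contra h2
    exact h1 ⟨l, hl, not_le.1 h2⟩

lemma exists_sgn (Φ : Fan ι) (g : Lat ι → ℤ) (hg : Lin Φ g) (hp : HP g) :
    ∃ Φ' : Fan ι, Ref Φ' Φ ∧ Sgn Φ' g := by
  obtain ⟨M, hM⟩ : ∃ M : ℕ, ∀ p, Bad Φ g p → wt Φ g p ≤ M := by
    refine ⟨∑ p : Φ.Λ × Φ.Λ, (wt Φ g p).natAbs, fun p _ => ?_⟩
    have h1 : (wt Φ g p).natAbs ≤ ∑ p : Φ.Λ × Φ.Λ, (wt Φ g p).natAbs :=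
      Finset.single_le_sum (f := fun p : Φ.Λ × Φ.Λ => (wt Φ g p).natAbs)
        (fun p _ => Nat.zero_le _) (Finset.mem_univ p)
    have h2 : wt Φ g p ≤ ((wt Φ g p).natAbs : ℤ) := Int.le_natAbs
    have h3 : ((wt Φ g p).natAbs : ℤ) ≤ ((∑ p : Φ.Λ × Φ.Λ, (wt Φ g p).natAbs : ℕ) : ℤ) := by
      exact_mod_cast h1
    exact h2.trans h3
  obtain ⟨Φ', h1, h2⟩ := noBad g hp M Φ hg hM
  exact ⟨Φ', h1, sgn_of_noBad Φ' g (hg.mono h1) h2⟩

lemma exists_sgn_finset {α : Type} (s : Finset α) (g : α → Lat ι → ℤ) (hp : ∀ a, HP (g a))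
    (Φ : Fan ι) (hg : ∀ a, Lin Φ (g a)) :
    ∃ Φ' : Fan ι, Ref Φ' Φ ∧ ∀ a ∈ s, Sgn Φ' (g a) := by
  classical
  induction s using Finset.induction_on with
  | empty => exact ⟨Φ, Ref.refl Φ, by simp⟩
  | insert a s ha ih =>
    obtain ⟨Φ', h1, h2⟩ := ih
    obtain ⟨Φ'', h3, h4⟩ := exists_sgn Φ' (g a) ((hg a).mono h1) (hp a)
    refine ⟨Φ'', h3.trans h1, fun b hb => ?_⟩
    rcases Finset.mem_insert.1 hb with rfl | hb
    · exact h4
    · exact (h2 b hb).mono h3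

/-! ### The initial fan -/

lemma exists_least (P : Lat ι → Prop) (P0 : P 0) (Pa : ∀ a b, P a → P b → P (a + b))
    (Pd : ∀ a, deg a = 0 → P a ∨ P (-a)) (s : Finset ι) (hs : s.Nonempty) :
    ∃ t ∈ s, ∀ j ∈ s, P (Pi.single j 1 - Pi.single t 1, 0) := by
  induction hs using Finset.Nonempty.cons_induction with
  | singleton a =>
    refine ⟨a, by simp, fun j hj => ?_⟩
    rw [Finset.mem_singleton] at hj
    subst hj
    rw [sub_self]
    exact P0
  | cons a s ha hs ih =>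
    obtain ⟨t, ht, h⟩ := ih
    have hd : deg ((Pi.single a 1 - Pi.single t 1, 0) : Lat ι) = 0 := by
      simp [deg, Finset.sum_sub_distrib, Pi.single_apply]
    rcases Pd _ hd with h1 | h1
    · refine ⟨t, by simp [ht], fun j hj => ?_⟩
      rcases Finset.mem_cons.1 hj with rfl | hj
      · exact h1
      · exact h j hj
    · refine ⟨a, by simp, fun j hj => ?_⟩
      rcases Finset.mem_cons.1 hj with rfl | hj
      · rw [sub_self]
        exact P0
      · have h2 := Pa _ _ (h j hj) h1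
        have h3 : ((Pi.single j 1 - Pi.single t 1, 0) : Lat ι) +
            -(Pi.single a 1 - Pi.single t 1, 0) = (Pi.single j 1 - Pi.single a 1, 0) := by
          ext x
          · simp
          · simp
        rwa [h3] at h2

/-- The fan of the projective space. -/
def Fan.init (ι : Type) [Fintype ι] [DecidableEq ι] [Nonempty ι] : Fan ι where
  Λ := Option ι
  T := ι
  r := fun l => l.elim (0, 1) (fun i => (Pi.single i 1, 0))
  S := fun i => Finset.univ.erase (some i)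
  y := fun t l => l.elim (0, 1) (fun i => (Pi.single i 1 - Pi.single t 1, 0))
  s := id
  H := fun i => (Pi.single i 1, 0)
  φ := fun _ => 0
  D := 1
  w0 := by
    rintro (_ | l) i
    · simp
    · simp only [Option.elim_some, Pi.single_apply]
      split_ifs <;> simp
  N0 := by
    rintro (_ | l) <;> simp
  ws := by
    rintro t (_ | l) hl
    · simp
    · have : l ≠ t := by simpa using hl
      simp [this]
  degy := by
    rintro t (_ | l) hl
    · simp [deg]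
    · simp [deg, Finset.sum_sub_distrib, Pi.single_apply]
  dual := by
    rintro t (_ | l) hl (_ | l') hl'
    · simp [pr]
    · simp [pr]
    · simp [pr]
    · have h2 : l' ≠ t := by simpa using hl'
      simp only [pr, Option.elim_some, Pi.sub_apply, Pi.single_apply, ite_mul, one_mul, zero_mul,
        Finset.sum_ite_eq', Finset.mem_univ, if_true, mul_zero, add_zero, Option.some.injEq]
      rw [if_neg h2, sub_zero]
  exp := by
    intro t m hm
    have h1 : ∑ l ∈ (Finset.univ : Finset (Option ι)).erase (some t),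
        pr (l.elim ((0, 1) : Lat ι) (fun i => (Pi.single i 1, 0))) m •
        l.elim ((0, 1) : Lat ι) (fun i => (Pi.single i 1 - Pi.single t 1, 0)) =
        ∑ l : Option ι, pr (l.elim ((0, 1) : Lat ι) (fun i => (Pi.single i 1, 0))) m •
        l.elim ((0, 1) : Lat ι) (fun i => (Pi.single i 1 - Pi.single t 1, 0)) := by
      rw [← Finset.sum_erase_add _ _ (Finset.mem_univ (some t))]
      simp
    rw [h1, Fintype.sum_option]
    have hp1 : pr ((0, 1) : Lat ι) m = m.2 := by simp [pr]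
    have hp2 : ∀ i, pr ((Pi.single i 1, 0) : Lat ι) m = m.1 i := by
      intro i
      simp [pr, Pi.single_apply]
    simp only [Option.elim_none, Option.elim_some, hp1, hp2]
    refine Prod.ext ?_ ?_
    · ext x
      have hm' : ∑ i, m.1 i = 0 := hm
      simp only [Prod.fst_add, Prod.fst_sum, Prod.smul_fst, Pi.add_apply, Finset.sum_apply,
        Pi.smul_apply, Pi.sub_apply, smul_eq_mul, Pi.zero_apply, mul_zero, zero_add, mul_sub,
        Finset.sum_sub_distrib, Pi.single_apply, mul_ite, mul_one, Finset.sum_ite_eq,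
        Finset.mem_univ, if_true]
      by_cases hx : x = t
      · simp [hx, hm']
      · simp [hx]
    · simp [Prod.snd_sum]
  degH := by
    intro t
    simp [deg]
  Dpos := le_rfl
  Hin := by
    rintro t (_ | l) hl
    · simp [pr]
    · have h2 : l ≠ t := by simpa using hl
      simp [pr, Pi.single_apply, Ne.symm h2]
  Hout := by
    rintro t (_ | l) hl
    · simp at hl
    · have h2 : l = t := by simpa using hl
      subst h2
      simp [pr, Pi.single_apply]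
  φ0 := fun _ => le_rfl
  φN := fun _ _ => rfl
  hor := by
    intro i
    refine ⟨some i, rfl, fun m => ?_⟩
    simp [pr, Pi.single_apply]
  ver := by
    refine ⟨none, fun m => ?_⟩
    simp [pr]
  cov := by
    intro P P0 Pa Pd P1
    obtain ⟨t, -, ht⟩ := exists_least P P0 Pa Pd Finset.univ Finset.univ_nonempty
    refine ⟨t, ?_⟩
    rintro (_ | l) hl
    · exact P1
    · exact ht l (Finset.mem_univ _)

/-! ### The main theorem on fans -/

lemma lin_pr (Φ : Fan ι) (μ : Lat ι) : Lin Φ (fun x => pr x μ) := fun t x _ y _ => pr_add_left x y μ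

lemma Fan.exists_vert (Φ : Fan ι) (t : Φ.T) : ∃ l ∈ Φ.S t, 0 < (Φ.r l).2 := by
  by_contra h
  have h1 : ∀ l ∈ Φ.S t, (Φ.r l).2 = 0 := fun l hl => by
    by_contra h2
    exact h ⟨l, hl, lt_of_le_of_ne (Φ.N0 l) (Ne.symm h2)⟩
  have h2 := Φ.exp t (0, 1) (by simp [deg])
  rw [Finset.sum_eq_zero] at h2
  · have h3 := congrArg Prod.snd h2
    simp at h3
  · intro l hl
    have h3 : pr (Φ.r l) (0, 1) = (Φ.r l).2 := by simp [pr]
    rw [h3, h1 l hl, zero_smul]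

/-- **The fan of a nondegenerate hypersurface**: on each cone one of the monomials is minimal. -/
theorem exists_fan [Nonempty ι] {α : Type} (A : Finset α) (e : α → ι → ℤ) (v : α → ℤ) (d : ℤ)
    (he : ∀ a i, 0 ≤ e a i) (hd : ∀ i, ∃ a ∈ A, e a = Pi.single i d) :
    ∃ Φ : Fan ι, ∀ t, ∃ a₀ ∈ A, ∀ a ∈ A, ∀ l ∈ Φ.S t,
      pr (Φ.r l) (e a₀, v a₀) ≤ pr (Φ.r l) (e a, v a) := by
  classical
  obtain ⟨N₀, hN₀⟩ : ∃ N₀ : ℤ, ∀ a ∈ A, v a < N₀ := by
    refine ⟨1 + ∑ a ∈ A, |v a|, fun a ha => ?_⟩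
    have h1 : |v a| ≤ ∑ a ∈ A, |v a| :=
      Finset.single_le_sum (f := fun a => |v a|) (fun a _ => abs_nonneg _) ha
    have h2 := le_abs_self (v a)
    omega
  have hw : ∀ a (x : Lat ι), x.2 = 0 → (∀ i, 0 ≤ x.1 i) → 0 ≤ pr x (e a, v a) := by
    intro a x hx h
    simp only [pr, hx, zero_mul, add_zero]
    exact Finset.sum_nonneg fun i _ => mul_nonneg (h i) (he a i)
  -- first step
  obtain ⟨Φ₁, -, h1⟩ := exists_sgn_finset A (fun a x => pr x ((e a, v a) - (0, N₀)))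
    (by
      intro a x hx h
      have := hw a x hx h
      change 0 ≤ pr x ((e a, v a) - (0, N₀))
      rw [pr_sub]
      have h2 : pr x (0, N₀) = 0 := by simp [pr, hx]
      rw [h2, sub_zero]
      exact this) (Fan.init ι) (fun a => lin_pr _ _)
  -- second step
  have hlin : ∀ a ∈ A, Lin Φ₁ (fun x => min (pr x (e a, v a)) (N₀ * x.2)) := by
    intro a ha t
    have h2 : ∀ x : Lat ι, pr x (0, N₀) = N₀ * x.2 := by
      intro x
      simp [pr, mul_comm]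
    rcases h1 a ha t with h3 | h3
    · have h4 : ∀ x ∈ Φ₁.C t, min (pr x (e a, v a)) (N₀ * x.2) = N₀ * x.2 := by
        intro x hx
        have := h3 x hx
        change _ ≤ pr x ((e a, v a) - (0, N₀)) at this
        rw [pr_sub, h2] at this
        exact min_eq_right (by omega)
      intro x hx y hy
      simp only
      rw [h4 x hx, h4 y hy, h4 _ (add_mem hx hy), Prod.snd_add]
      ring
    · have h4 : ∀ x ∈ Φ₁.C t, min (pr x (e a, v a)) (N₀ * x.2) = pr x (e a, v a) := by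
        intro x hx
        have := h3 x hx
        change pr x ((e a, v a) - (0, N₀)) ≤ _ at this
        rw [pr_sub, h2] at this
        exact min_eq_left (by omega)
      intro x hx y hy
      simp only
      rw [h4 x hx, h4 y hy, h4 _ (add_mem hx hy), pr_add_left]
  obtain ⟨Φ₂, h21, h2⟩ := exists_sgn_finset (A.attach ×ˢ A.attach)
    (fun (p : A × A) x => min (pr x (e p.1, v p.1)) (N₀ * x.2) -
      min (pr x (e p.2, v p.2)) (N₀ * x.2))
    (by
      intro p x hx h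
      simp only
      rw [hx, mul_zero, min_eq_right (hw p.1 x hx h), min_eq_right (hw p.2 x hx h), sub_zero])
    Φ₁ (by
      intro p t x hx y hy
      have h3 := hlin p.1 p.1.2 t x hx y hy
      have h4 := hlin p.2 p.2.2 t x hx y hy
      simp only at h3 h4 ⊢
      rw [h3, h4]
      ring)
  refine ⟨Φ₂, fun t => ?_⟩
  set g : α → Lat ι → ℤ := fun a x => min (pr x (e a, v a)) (N₀ * x.2) with hgdef
  have h3 : ∀ a ∈ A, ∀ b ∈ A, (∀ x ∈ Φ₂.C t, g a x ≤ g b x) ∨ (∀ x ∈ Φ₂.C t, g b x ≤ g a x) := by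
    intro a ha b hb
    rcases h2 (⟨a, ha⟩, ⟨b, hb⟩) (by simp) t with h | h
    · right
      intro x hx
      have := h x hx
      simp only [hgdef] at this ⊢
      omega
    · left
      intro x hx
      have := h x hx
      simp only [hgdef] at this ⊢
      omega
  -- a least element
  have h4 : ∀ s : Finset α, s ⊆ A → s.Nonempty → ∃ a₀ ∈ s, ∀ a ∈ s, ∀ x ∈ Φ₂.C t, g a₀ x ≤ g a x := by
    intro s hs hne
    induction hne using Finset.Nonempty.cons_induction with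
    | singleton a => exact ⟨a, by simp, fun b hb x _ => by rw [Finset.mem_singleton.1 hb]⟩
    | cons a s ha hne ih =>
      obtain ⟨a₀, ha₀, h5⟩ := ih (fun x hx => hs (Finset.mem_cons_of_mem hx))
      rcases h3 a₀ (hs (Finset.mem_cons_of_mem ha₀)) a (hs (Finset.mem_cons_self _ _)) with h6 | h6
      · refine ⟨a₀, Finset.mem_cons_of_mem ha₀, fun b hb x hx => ?_⟩
        rcases Finset.mem_cons.1 hb with rfl | hb
        · exact h6 x hx
        · exact h5 b hb x hx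
      · refine ⟨a, Finset.mem_cons_self _ _, fun b hb x hx => ?_⟩
        rcases Finset.mem_cons.1 hb with rfl | hb
        · exact le_rfl
        · exact (h6 x hx).trans (h5 b hb x hx)
  obtain ⟨a₁, ha₁, hea₁⟩ := hd (Φ₂.s t)
  obtain ⟨a₀, ha₀, h5⟩ := h4 A (Finset.Subset.refl _) ⟨a₁, ha₁⟩
  refine ⟨a₀, ha₀, ?_⟩
  -- `g a₀ = pr a₀` on the cone
  have h6 : ∀ x ∈ Φ₂.C t, g a₀ x = pr x (e a₀, v a₀) := by
    obtain ⟨t', ht'⟩ := h21 t
    have h7 : (∀ x ∈ Φ₂.C t, N₀ * x.2 ≤ pr x (e a₀, v a₀)) ∨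
        (∀ x ∈ Φ₂.C t, pr x (e a₀, v a₀) ≤ N₀ * x.2) := by
      have h2 : ∀ x : Lat ι, pr x (0, N₀) = N₀ * x.2 := by
        intro x
        simp [pr, mul_comm]
      rcases h1 a₀ ha₀ t' with h8 | h8
      · left
        intro x hx
        have := h8 x (ht' hx)
        change _ ≤ pr x ((e a₀, v a₀) - (0, N₀)) at this
        rw [pr_sub, h2] at this
        omega
      · right
        intro x hx
        have := h8 x (ht' hx)
        change pr x ((e a₀, v a₀) - (0, N₀)) ≤ _ at this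
        rw [pr_sub, h2] at this
        omega
    rcases h7 with h7 | h7
    · exfalso
      obtain ⟨l, hl, hN⟩ := Φ₂.exists_vert t
      have h8 := h5 a₁ ha₁ _ (mem_C hl)
      have h9 := h7 _ (mem_C hl)
      simp only [hgdef] at h8
      rw [min_eq_right h9] at h8
      have h10 : pr (Φ₂.r l) (e a₁, v a₁) = (Φ₂.r l).2 * v a₁ := by
        rw [hea₁]
        simp [pr, Pi.single_apply, Φ₂.ws t l hl]
      rw [h10] at h8
      have h11 := le_trans h8 (min_le_left _ _)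
      have h12 := hN₀ a₁ ha₁
      nlinarith
    · intro x hx
      exact min_eq_left (h7 x hx)
  intro a ha l hl
  have h7 := h5 a ha _ (mem_C hl)
  rw [h6 _ (mem_C hl)] at h7
  exact h7.trans (min_le_left _ _)

end Pool.Agent.K9h37.TN
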