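import Pool.Agent.K9h37.TN.Glob

set_option autoImplicit false
set_option linter.unusedVariables false
set_option linter.unusedSectionVars false

open scoped Pointwise

namespace Pool.Agent.K9h37.TN

open Pool.Agent.H918R2.Quad Pool.Agent.H945R2.E Pool.Agent.H945R2.D Pool.Agent.W418
  Pool.Agent.TH214.RM MvPolynomial

/-- The diagonal form. -/
noncomputable def diag {O ι : Type} [CommRing O] [Fintype ι] (m : ℕ) (a : ι → O) :
    MvPolynomial ι O := ∑ i, C (a i) * X i ^ m

theorem diag_homog {O ι : Type} [CommRing O] [Fintype ι] (m : ℕ) (a : ι → O) :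
    (diag m a).IsHomogeneous m := by
  refine IsHomogeneous.sum _ _ _ fun i _ => ?_
  have h := (isHomogeneous_C ι (a i)).mul ((isHomogeneous_X O i).pow m)
  simpa using h

open Classical in
theorem diag_coeff {O ι : Type} [CommRing O] [Fintype ι] (m : ℕ) (hm : 1 ≤ m) (a : ι → O)
    (s : ι →₀ ℕ) : (diag m a).coeff s = ∑ i, if Finsupp.single i m = s then a i else 0 := by
  rw [diag, coeff_sum]
  refine Finset.sum_congr rfl fun i _ => ?_
  rw [X_pow_eq_monomial, C_mul_monomial, coeff_monomial, mul_one]

theorem single_inj {ι : Type} {m : ℕ} (hm : 1 ≤ m) {i j : ι}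
    (h : (Finsupp.single i m : ι →₀ ℕ) = Finsupp.single j m) : i = j :=
  ((Finsupp.single_eq_single_iff _ _ _ _).1 h).elim (fun h => h.1) (fun h => by omega)

theorem diag_coeff_single {O ι : Type} [CommRing O] [Fintype ι] (m : ℕ) (hm : 1 ≤ m) (a : ι → O)
    (i : ι) : (diag m a).coeff (Finsupp.single i m) = a i := by
  classical
  rw [diag_coeff m hm a, Finset.sum_eq_single i]
  · rw [if_pos rfl]
  · intro j _ hj
    rw [if_neg]
    intro h
    exact hj (single_inj hm h)
  · simp

theorem diag_aeval {O F ι : Type} [CommRing O] [CommRing F] [Algebra O F] [Fintype ι] (m : ℕ)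
    (a : ι → O) (x : ι → F) : aeval x (diag m a) = ∑ i, algebraMap O F (a i) * x i ^ m := by
  rw [diag, map_sum]
  refine Finset.sum_congr rfl fun i _ => ?_
  rw [map_mul, map_pow, aeval_X, algHom_C]

section

variable {O K F : Type} [CommRing O] [IsDedekindDomain O] [Field K] [Algebra O K]
  [IsFractionRing O K] [Field F] [Algebra K F] [Algebra O F] [IsScalarTower O K F]

theorem lin_subst {n : ℕ} (T T' : Matrix (Fin (n + 2)) (Fin (n + 2)) K) (hTT : T * T' = 1)
    (P : MvPolynomial (Fin (n + 2)) K) :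
    (aeval (fun i => ∑ j, C (T i j) * X j) :
      MvPolynomial (Fin (n + 2)) K →ₐ[K] MvPolynomial (Fin (n + 2)) K)
      ((aeval (fun i => ∑ j, C (T' i j) * X j) :
        MvPolynomial (Fin (n + 2)) K →ₐ[K] MvPolynomial (Fin (n + 2)) K) P) = P := by
  rw [← AlgHom.comp_apply]
  have h3 : (aeval (fun i => ∑ j, C (T i j) * X j) :
      MvPolynomial (Fin (n + 2)) K →ₐ[K] MvPolynomial (Fin (n + 2)) K).comp
      (aeval (fun i => ∑ j, C (T' i j) * X j) :
      MvPolynomial (Fin (n + 2)) K →ₐ[K] MvPolynomial (Fin (n + 2)) K) = AlgHom.id K _ := by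
    apply MvPolynomial.algHom_ext
    intro i
    rw [AlgHom.comp_apply, aeval_X, map_sum, AlgHom.id_apply]
    simp only [map_mul, aeval_X, aeval_C, algebraMap_eq]
    have h1 : ∑ j, C (T' i j) * ∑ m, C (T j m) * X m =
        ∑ m, C (∑ j, T' i j * T j m) * (X m : MvPolynomial (Fin (n + 2)) K) := by
      simp only [Finset.mul_sum, Finset.sum_mul, map_sum]
      rw [Finset.sum_comm]
      refine Finset.sum_congr rfl fun m _ => Finset.sum_congr rfl fun j _ => ?_
      rw [C_mul]
      ring
    rw [h1]
    have h2 : ∀ m, ∑ j, T' i j * T j m = if i = m then 1 else 0 := by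
      intro m
      rw [← Matrix.mul_apply, mul_eq_one_comm.1 hTT, Matrix.one_apply]
    simp only [h2]
    simp
  rw [h3, AlgHom.id_apply]

theorem lin_coords {n : ℕ} (T T' : Matrix (Fin (n + 2)) (Fin (n + 2)) K) (hTT : T * T' = 1)
    (x : Fin (n + 2) → F) (i : Fin (n + 2)) :
    x i = ∑ j, algebraMap K F (T i j) * ∑ m, algebraMap K F (T' j m) * x m := by
  have h1 : ∑ j, algebraMap K F (T i j) * ∑ m, algebraMap K F (T' j m) * x m =
      ∑ m, (∑ j, algebraMap K F (T i j) * algebraMap K F (T' j m)) * x m := by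
    simp only [Finset.mul_sum, Finset.sum_mul]
    rw [Finset.sum_comm]
    refine Finset.sum_congr rfl fun m _ => Finset.sum_congr rfl fun j _ => ?_
    ring
  have h2 : ∀ m, ∑ j, algebraMap K F (T i j) * algebraMap K F (T' j m) =
      if i = m then 1 else 0 := by
    intro m
    have h3 : (T * T') i m = (1 : Matrix (Fin (n + 2)) (Fin (n + 2)) K) i m := by rw [hTT]
    rw [Matrix.mul_apply, Matrix.one_apply] at h3
    have h4 := congrArg (algebraMap K F) h3
    rw [map_sum] at h4
    simp only [map_mul] at h4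
    rw [h4]
    split_ifs <;> simp
  rw [h1]
  simp only [h2, ite_mul, one_mul, zero_mul, Finset.sum_ite_eq, Finset.mem_univ, if_true]

include K in
/-- The relation in the new coordinates. -/
theorem rel_lin {n : ℕ} (G : MvPolynomial (Fin (n + 2)) K) (H : MvPolynomial (Fin (n + 2)) O)
    (l : K) (T T' : Matrix (Fin (n + 2)) (Fin (n + 2)) K) (hTT : T * T' = 1)
    (hH : map (algebraMap O K) H = C l * aeval (fun i => ∑ j, C (T i j) * X j) G)
    (x : Fin (n + 2) → F) (hrel : aeval x G = 0) :
    aeval (fun i => ∑ j, algebraMap K F (T' i j) * x j) H = 0 := by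
  set x' : Fin (n + 2) → F := fun i => ∑ j, algebraMap K F (T' i j) * x j with hx'
  rw [← aeval_map_algebraMap K x' H, hH, map_mul]
  have h1 : aeval x' ((aeval (fun i => ∑ j, C (T i j) * X j) :
      MvPolynomial (Fin (n + 2)) K →ₐ[K] MvPolynomial (Fin (n + 2)) K) G) = aeval x G := by
    rw [← AlgHom.comp_apply]
    congr 1
    apply MvPolynomial.algHom_ext
    intro i
    rw [AlgHom.comp_apply, aeval_X, aeval_X, map_sum, lin_coords T T' hTT x i]
    refine Finset.sum_congr rfl fun j _ => ?_
    rw [map_mul, aeval_X, aeval_C]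
  rw [h1, hrel, mul_zero]

include K in
/-- The local module at a prime dividing the degree of a diagonal equation. -/
theorem locMod_wild [CharZero O] [CharZero K] (𝔭 : Ideal O) [𝔭.IsPrime] (h0 : 𝔭 ≠ ⊥)
    (hfin : Finite (O ⧸ 𝔭)) {n : ℕ}
    (G : MvPolynomial (Fin (n + 2)) K) (hG : Prime G) (m : ℕ) (hGm : G.IsHomogeneous m)
    (hm : 3 ≤ m) (hsq : Squarefree m) (a : Fin (n + 2) → O) (ha : HypAt m 𝔭 a)
    (x : Fin (n + 2) → F) (hx0 : x 0 = 1)
    (hrel : aeval x G = 0)
    (hgen : IntermediateField.adjoin K (Set.range x) = ⊤)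
    (b : Fin n → F) (htb : IsTranscendenceBasis K b)
    (l : K) (hl : l ≠ 0) (T T' : Matrix (Fin (n + 2)) (Fin (n + 2)) K) (hTT : T * T' = 1)
    (hH : map (algebraMap O K) (diag m a) = C l * aeval (fun i => ∑ j, C (T i j) * X j) G) :
    LocMod 𝔭 x := by
  classical
  have hOK : Function.Injective (algebraMap O K) := IsFractionRing.injective O K
  have hOF : Function.Injective (algebraMap O F) := by
    rw [IsScalarTower.algebraMap_eq O K F]
    exact (algebraMap K F).injective.comp hOK
  have ha0 : ∀ i, a i ≠ 0 := by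
    intro i h
    apply ha.2.1 i
    rw [h]
    exact Ideal.zero_mem _
  set x' : Fin (n + 2) → F := fun i => ∑ j, algebraMap K F (T' i j) * x j with hx'
  have hxx' : ∀ i, x i = ∑ j, algebraMap K F (T i j) * x' j := lin_coords T T' hTT x
  have hrel' : aeval x' (diag m a) = 0 := rel_lin G _ l T T' hTT hH x hrel
  have hne : ∀ i, x' i ≠ 0 := by
    refine coord_ne_zero (diag m a) m (diag_homog m a) (fun i => ?_) x' hrel' ?_ ?_
    · rw [diag_coeff_single m (by omega)]
      exact ha0 i
    · by_contra hcon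
      push Not at hcon
      have h1 := hxx' 0
      rw [hx0] at h1
      simp only [hcon, mul_zero, Finset.sum_const_zero] at h1
      exact one_ne_zero h1
    · intro s hs
      obtain ⟨j₀, hj₀⟩ := hind_of (K := K) (ι := Fin (n + 2)) (by simp) x hx0 hgen b htb x'
        (fun i j => T i j) hxx' s hs
      exact ⟨j₀, hj₀.restrictScalars hOK⟩
  refine locMod_lin (K := K) 𝔭 h0 x x' ?_ ?_ ?_
  · intro i
    refine Submodule.sum_mem _ fun j _ => ?_
    rw [← Algebra.smul_def]
    exact Submodule.smul_mem _ _ (Submodule.subset_span ⟨j, rfl⟩)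
  · intro i
    rw [hxx' i]
    refine Submodule.sum_mem _ fun j _ => ?_
    rw [← Algebra.smul_def]
    exact Submodule.smul_mem _ _ (Submodule.subset_span ⟨j, rfl⟩)
  refine locMod_mul 𝔭 x' (x' 0)⁻¹ (inv_ne_zero (hne 0)) ?_
  set z : Fin (n + 2) → F := fun i => (x' 0)⁻¹ * x' i with hz
  have hx'z : ∀ i, x' i = x' 0 * z i := by
    intro i
    simp only [hz]
    rw [← mul_assoc, mul_inv_cancel₀ (hne 0), one_mul]
  refine diag_bad (K := K) 𝔭 h0 hfin m hm hsq a ha z ?_ ?_ ?_ ?_ b htb
  · simp only [hz]
    exact inv_mul_cancel₀ (hne 0)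
  · rw [diag_aeval] at hrel'
    have h1 : ∑ i, algebraMap O F (a i) * z i ^ m = ((x' 0)⁻¹) ^ m *
        ∑ i, algebraMap O F (a i) * x' i ^ m := by
      rw [Finset.mul_sum]
      refine Finset.sum_congr rfl fun i _ => ?_
      simp only [hz]
      ring
    rw [h1, hrel', mul_zero]
  · rw [eq_top_iff, ← hgen, IntermediateField.adjoin_le_iff]
    set L := IntermediateField.adjoin K (Set.range z) with hL
    have h1 : ∀ i, x i / x' 0 ∈ L := by
      intro i
      rw [hxx' i, Finset.sum_div]
      refine L.sum_mem fun j _ => ?_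
      rw [mul_div_assoc]
      refine L.mul_mem (L.algebraMap_mem _) ?_
      rw [hx'z j, mul_comm, mul_div_assoc, div_self (hne 0), mul_one]
      exact IntermediateField.subset_adjoin K _ ⟨j, rfl⟩
    rintro _ ⟨i, rfl⟩
    have h3 : x i = (x i / x' 0) / (x 0 / x' 0) := by
      rw [hx0]
      have := hne 0
      field_simp
    rw [h3]
    exact L.div_mem (h1 i) (h1 0)
  · intro e he hem
    rw [Fintype.linearIndependent_iff]
    intro c hc i₀
    -- the form of degree `e` vanishes at the point
    let P : MvPolynomial (Fin (n + 2)) K :=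
      ∑ i, C (c i) * (∑ j, C (T' i j) * X j) ^ e
    have hPe : P.IsHomogeneous e := by
      refine IsHomogeneous.sum _ _ _ fun i _ => ?_
      have h1 : (∑ j, C (T' i j) * X j : MvPolynomial (Fin (n + 2)) K).IsHomogeneous 1 := by
        refine IsHomogeneous.sum _ _ _ fun j _ => ?_
        have h2 := (isHomogeneous_C (Fin (n + 2)) (T' i j)).mul (isHomogeneous_X K j)
        rwa [zero_add] at h2
      have h2 := (isHomogeneous_C (Fin (n + 2)) (c i)).mul (h1.pow e)
      simpa using h2
    have hPx : aeval x P = 0 := by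
      have h1 : aeval x P = (x' 0) ^ e * ∑ i, c i • z i ^ e := by
        rw [map_sum, Finset.mul_sum]
        refine Finset.sum_congr rfl fun i _ => ?_
        rw [map_mul, map_pow, map_sum, aeval_C, Algebra.smul_def]
        have h2 : ∑ j, aeval x (C (T' i j) * X j : MvPolynomial (Fin (n + 2)) K) = x' i := by
          refine Finset.sum_congr rfl fun j _ => ?_
          rw [map_mul, aeval_C, aeval_X]
        rw [h2, hx'z i]
        ring
      rw [h1, hc, mul_zero]
    have hdvd := hyp_dvd x hx0 hgen b htb G hG m hGm hrel e P hPe hPx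
    have hP0 : P = 0 := by
      by_contra hP0
      have h1 := totalDegree_le_of_dvd_of_isDomain hdvd hP0
      rw [hGm.totalDegree hG.ne_zero, hPe.totalDegree hP0] at h1
      omega
    have h2 : (diag e c : MvPolynomial (Fin (n + 2)) K) = 0 := by
      have h3 : (aeval (fun i => ∑ j, C (T' i j) * X j) :
        MvPolynomial (Fin (n + 2)) K →ₐ[K] MvPolynomial (Fin (n + 2)) K) (diag e c) = P := by
        rw [diag_aeval]
        rfl
      have h4 := lin_subst T T' hTT (diag e c)
      rw [h3, hP0, map_zero] at h4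
      exact h4.symm
    have h3 := diag_coeff_single e he c i₀
    rw [h2, coeff_zero] at h3
    exact h3.symm

end

end Pool.Agent.K9h37.TN
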